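import Pool.Agent.RPT.PtK

/-!
# Integral models of ramified points

HINTS. (0) `map₂ : (𝓞 k)[X][X] →+* k[X][X]` is `mapRingHom (mapRingHom (algebraMap (𝓞 k) k))`.
Clearing denominators: for finitely many `F : k[X][X]` there is one `d : 𝓞 k`, `d ≠ 0`, such that every
`C (C d) * F` is in the image of `map₂` (from `IsLocalization.exist_integer_multiples`, or induction on
the coefficients; compare `SFD.exists_int` in SFD/Gen.lean). (1) Choose `β ≠ 0` such that all
coefficients of `C (C β) * G` are integral; then `G.scaleRoots (C (β : k))` (coefficients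
`G_l β ^ (n - l)`, leading coefficient `1`) is `map₂ G'` with `G'` monic of the same degree. (2) For
`F : k[X][X]` let `F' = F.comp (C (C β⁻¹) * X)`, a ring homomorphism; `G.scaleRoots (C β) =
C (C β ^ n) * G'`-version of `G` (compare coefficients). Apply it to the relations of the point:
`hG` gives `G = u * C b + v * h` (`Ideal.mem_span_pair`), `hsep`, `hH` give representations of `1`
(`Ideal.eq_top_iff_one`, `Ideal.mem_span_insert`), `hμ` gives `μ ^ e = C b * H + G * R'`; note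
`derivative (h.comp ..) = C (C β⁻¹) * (derivative h).comp ..`. (3) Multiply by constants: the integral
`b` is `γ * b`, the integral `h` is `δ * h.comp ..` (leading coefficient `δ β⁻¹ ^ f`, a constant, choose
`δ` so that it is in `𝓞 k`), the integral `μ` is `ε * μ.comp ..`, the integral `H` is
`ε ^ e γ⁻¹ H.comp ..` and the integral `R'` is `ε ^ e β ^ (-n) R'.comp ..`, with `ε` divisible by all
denominators; then choose `d₁, d₂, d₃` (nonzero) clearing the denominators of the coefficients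
`h₂ = d₁ .. v`, `R = d₁ .. u`, `α, β, γ`, `α', β', γ'`. (`map₂` is injective, so identities can be
checked after `map₂`.) (4) The same for the relations `hco` of two different points.
-/

set_option autoImplicit false

open Polynomial NumberField Module

namespace Pool.Agent.RPT

section

set_option linter.unusedSectionVars false

variable {k : Type} [Field k] [NumberField k]

variable (k) in
/-- the base change to `k` -/
private noncomputable def conv_mm : (𝓞 k)[X][X] →+* k[X][X] :=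
  mapRingHom (mapRingHom (algebraMap (𝓞 k) k))

/-- an integral multiple of a polynomial -/
private theorem conv_int (g : k[X]) : ∃ (b : 𝓞 k) (G : (𝓞 k)[X]), b ≠ 0 ∧
    G.map (algebraMap (𝓞 k) k) = C (b : k) * g := by
  obtain ⟨b, hb, h⟩ := IsLocalization.integerNormalization_spec (nonZeroDivisors (𝓞 k)) g
  refine ⟨b, IsLocalization.integerNormalization (nonZeroDivisors (𝓞 k)) g,
    nonZeroDivisors.ne_zero hb, ?_⟩
  rw [h]
  ext i
  rw [coeff_smul, coeff_C_mul, Algebra.smul_def]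

private theorem conv_iota_inj : Function.Injective (mapRingHom (algebraMap (𝓞 k) k)) :=
  Polynomial.map_injective _ RingOfIntegers.coe_injective

private theorem conv_inj : Function.Injective (conv_mm k) :=
  Polynomial.map_injective _ conv_iota_inj

private theorem conv_ne {c : 𝓞 k} (hc : c ≠ 0) : (c : k) ≠ 0 :=
  fun h0 => hc (RingOfIntegers.ext h0)

private theorem conv_C (q : (𝓞 k)[X]) :
    conv_mm k (C q) = C (q.map (algebraMap (𝓞 k) k)) := by
  show (C q).map (mapRingHom (algebraMap (𝓞 k) k)) = _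
  rw [Polynomial.map_C]
  rfl

private theorem conv_CC (c : 𝓞 k) : conv_mm k (C (C c)) = C (C (c : k)) := by
  rw [conv_C, Polynomial.map_C]

private theorem conv_cc (a b : k) : (C (C (a * b)) : k[X][X]) = C (C a) * C (C b) := by
  rw [C_mul, C_mul]

private theorem conv_cc_inv {a : k} (ha : a ≠ 0) : (C (C a) : k[X][X]) * C (C a⁻¹) = 1 := by
  rw [← conv_cc, mul_inv_cancel₀ ha, C_1, C_1]

private theorem conv_clear1 (F : k[X][X]) : ∃ (d : 𝓞 k) (F' : (𝓞 k)[X][X]), d ≠ 0 ∧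
    conv_mm k F' = C (C (d : k)) * F := by
  induction F using Polynomial.induction_on' with
  | add p q hp hq =>
    obtain ⟨d₁, P, h1, h2⟩ := hp
    obtain ⟨d₂, Q, h3, h4⟩ := hq
    refine ⟨d₁ * d₂, C (C d₂) * P + C (C d₁) * Q, mul_ne_zero h1 h3, ?_⟩
    rw [map_add, map_mul, map_mul, conv_CC, conv_CC, h2, h4]
    have h5 : ((d₁ * d₂ : 𝓞 k) : k) = (d₁ : k) * (d₂ : k) := rfl
    rw [h5, conv_cc]
    ring
  | monomial n a =>
    obtain ⟨b, A, hb, hA⟩ := conv_int a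
    refine ⟨b, monomial n A, hb, ?_⟩
    show (monomial n A).map (mapRingHom (algebraMap (𝓞 k) k)) = _
    rw [Polynomial.map_monomial, C_mul_monomial]
    congr 1

private theorem conv_clear {n : ℕ} (F : Fin n → k[X][X]) :
    ∃ (d : 𝓞 k) (F' : Fin n → (𝓞 k)[X][X]), d ≠ 0 ∧
      ∀ i, conv_mm k (F' i) = C (C (d : k)) * F i := by
  choose d F' hd hF using fun i => conv_clear1 (F i)
  refine ⟨∏ i, d i, fun i => C (C (∏ j ∈ Finset.univ.erase i, d j)) * F' i,
    Finset.prod_ne_zero_iff.2 fun i _ => hd i, fun i => ?_⟩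
  have h1 := Finset.prod_erase_mul Finset.univ d (Finset.mem_univ i)
  have h2 : ((∏ i, d i : 𝓞 k) : k) =
      ((∏ j ∈ Finset.univ.erase i, d j : 𝓞 k) : k) * (d i : k) := by
    rw [← h1]
    rfl
  rw [map_mul, conv_CC, hF, h2, conv_cc, mul_assoc]

private theorem conv_comb {n : ℕ} (P : Fin n → k[X][X]) (Q : Fin n → (𝓞 k)[X][X])
    (T : (𝓞 k)[X][X]) (h : ∑ i, P i * conv_mm k (Q i) = conv_mm k T) :
    ∃ (d : 𝓞 k) (P' : Fin n → (𝓞 k)[X][X]), d ≠ 0 ∧ ∑ i, P' i * Q i = C (C d) * T := by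
  obtain ⟨d, P', hd, hP⟩ := conv_clear P
  refine ⟨d, P', hd, conv_inj ?_⟩
  rw [map_sum, map_mul, conv_CC, ← h, Finset.mul_sum]
  refine Finset.sum_congr rfl fun i _ => ?_
  rw [map_mul, hP, mul_assoc]

/-- the substitution `Y ↦ c Y` -/
private noncomputable def conv_phi (c : k) : k[X][X] →+* k[X][X] := compRingHom (C (C c) * X)

private theorem conv_phi_apply (c : k) (F : k[X][X]) :
    conv_phi c F = F.comp (C (C c) * X) := rfl

private theorem conv_phi_C (c : k) (q : k[X]) : conv_phi c (C q) = C q := by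
  rw [conv_phi_apply, C_comp]

private theorem conv_triple {R : Type*} [CommRing R] {x y z : R}
    (h : Ideal.span {x, y, z} = ⊤) : ∃ a b c : R, a * x + b * y + c * z = 1 := by
  rw [Ideal.eq_top_iff_one, Ideal.mem_span_insert] at h
  obtain ⟨a, w, hw, h1⟩ := h
  obtain ⟨b, c, h2⟩ := Ideal.mem_span_pair.1 hw
  exact ⟨a, b, c, by rw [h1, ← h2]; ring⟩

private theorem conv_quad {R : Type*} [CommRing R] {x y z t : R}
    (h : Ideal.span {x, y, z, t} = ⊤) :
    ∃ a b c d : R, a * x + b * y + c * z + d * t = 1 := by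
  rw [Ideal.eq_top_iff_one, Ideal.mem_span_insert] at h
  obtain ⟨a, w, hw, h1⟩ := h
  obtain ⟨b, w', hw', h2⟩ := Ideal.mem_span_insert.1 hw
  obtain ⟨c, d, h3⟩ := Ideal.mem_span_pair.1 hw'
  exact ⟨a, b, c, d, by rw [h1, h2, ← h3]; ring⟩

private theorem conv_pt {G : k[X][X]} {G' : (𝓞 k)[X][X]} {β : 𝓞 k} (hβ : β ≠ 0) {N : ℕ}
    (hG' : conv_mm k G' = C (C ((β : k) ^ N)) * conv_phi ((β : k)⁻¹) G) (p : RamPt k G) :
    ∃ p' : Pt k G', (p'.e = p.e ∧ p'.f = p.f ∧
      ∃ γ : k, γ ≠ 0 ∧ p'.b.map (algebraMap (𝓞 k) k) = C γ * p.b) ∧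
      ∃ δ : k, δ ≠ 0 ∧ conv_mm k p'.h = C (C δ) * conv_phi ((β : k)⁻¹) p.h := by
  have hβk := conv_ne hβ
  obtain ⟨φ, hφ⟩ : ∃ φ : k[X][X] →+* k[X][X], φ = conv_phi ((β : k)⁻¹) := ⟨_, rfl⟩
  have hφC : ∀ q : k[X], φ (C q) = C q := fun q => by rw [hφ, conv_phi_C]
  have hφa : ∀ F : k[X][X], φ F = F.comp (C (C (β : k)⁻¹) * X) := fun F => by
    rw [hφ, conv_phi_apply]
  rw [← hφ] at hG' ⊢
  obtain ⟨γ, bI, hγ, hbI⟩ := conv_int p.b
  obtain ⟨δ, hI, hδ, hhI⟩ := conv_clear1 (φ p.h)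
  have hγk := conv_ne hγ
  have hδk := conv_ne hδ
  have hbC : conv_mm k (C bI) = C (C (γ : k)) * C p.b := by
    rw [conv_C, hbI, C_mul]
  -- the constants
  obtain ⟨g, hg⟩ : ∃ g : k[X][X], g = C (C (γ : k)) := ⟨_, rfl⟩
  obtain ⟨g', hg'⟩ : ∃ g : k[X][X], g = C (C (γ : k)⁻¹) := ⟨_, rfl⟩
  have hgg : g * g' = 1 := by rw [hg, hg', conv_cc_inv hγk]
  obtain ⟨a, ha⟩ : ∃ g : k[X][X], g = C (C (δ : k)) := ⟨_, rfl⟩
  obtain ⟨a', ha'⟩ : ∃ g : k[X][X], g = C (C (δ : k)⁻¹) := ⟨_, rfl⟩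
  have haa : a * a' = 1 := by rw [ha, ha', conv_cc_inv hδk]
  obtain ⟨n, hn⟩ : ∃ g : k[X][X], g = C (C ((β : k) ^ N)) := ⟨_, rfl⟩
  obtain ⟨n', hn'⟩ : ∃ g : k[X][X], g = C (C ((β : k) ^ N)⁻¹) := ⟨_, rfl⟩
  have hnn : n * n' = 1 := by rw [hn, hn', conv_cc_inv (pow_ne_zero _ hβk)]
  obtain ⟨t, ht⟩ : ∃ g : k[X][X], g = C (C (β : k)) := ⟨_, rfl⟩
  obtain ⟨t', ht'⟩ : ∃ g : k[X][X], g = C (C (β : k)⁻¹) := ⟨_, rfl⟩
  have htt : t * t' = 1 := by rw [ht, ht', conv_cc_inv hβk]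
  rw [← hg] at hbC
  rw [← ha] at hhI
  rw [← hn] at hG'
  -- the first relation
  obtain ⟨u, v, huv⟩ := Ideal.mem_span_pair.1 p.hG
  have huv' : φ u * C p.b + φ v * φ p.h = φ G := by
    have h2 := congrArg φ huv
    rw [map_add, map_mul, map_mul, hφC] at h2
    exact h2
  obtain ⟨d₁, P₁, hd₁, h1⟩ := conv_comb ![n * g' * φ u, n * a' * φ v] ![C bI, hI] G' (by
    rw [Fin.sum_univ_two]
    simp only [Matrix.cons_val_zero, Matrix.cons_val_one]
    rw [hbC, hhI, hG', ← huv']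
    linear_combination (n * φ u * C p.b) * hgg + (n * φ v * φ p.h) * haa)
  rw [Fin.sum_univ_two] at h1
  simp only [Matrix.cons_val_zero, Matrix.cons_val_one] at h1
  -- the second relation
  obtain ⟨R₀, hR₀⟩ := p.hμ
  obtain ⟨e', he'⟩ : ∃ e' : ℕ, p.e = e' + 1 := ⟨p.e - 1, by have := p.he; omega⟩
  have hR₀' : φ p.μ ^ (e' + 1) = C p.b * φ p.H + φ G * φ R₀ := by
    rw [he'] at hR₀
    have h2 := congrArg φ hR₀
    rw [map_sub, map_mul, map_mul, map_pow, hφC] at h2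
    linear_combination h2
  obtain ⟨ε, F, hε, hF⟩ := conv_clear ![φ p.μ, g' * φ p.H, n' * φ R₀]
  have hεk := conv_ne hε
  have hF0 := hF 0
  have hF1 := hF 1
  have hF2 := hF 2
  simp only [Matrix.cons_val_zero, Matrix.cons_val_one, Matrix.cons_val_two,
    Matrix.tail_cons, Matrix.head_cons] at hF0 hF1 hF2
  obtain ⟨E, hE⟩ : ∃ g : k[X][X], g = C (C (ε : k)) := ⟨_, rfl⟩
  obtain ⟨E', hE'⟩ : ∃ g : k[X][X], g = C (C (ε : k)⁻¹) := ⟨_, rfl⟩
  have hEE : E * E' = 1 := by rw [hE, hE', conv_cc_inv hεk]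
  rw [← hE] at hF0 hF1 hF2
  have hEp : conv_mm k (C (C (ε ^ e'))) = E ^ e' := by
    rw [C_pow, C_pow, map_pow, conv_CC, hE]
  have hHI : conv_mm k (C (C (ε ^ e')) * F 1) = E ^ (e' + 1) * g' * φ p.H := by
    rw [map_mul, hEp, hF1]
    ring
  have hRI : conv_mm k (C (C (ε ^ e')) * F 2) = E ^ (e' + 1) * n' * φ R₀ := by
    rw [map_mul, hEp, hF2]
    ring
  have hEE' : E ^ (e' + 1) * E' ^ (e' + 1) = 1 := by rw [← mul_pow, hEE, one_pow]
  have h2 : F 0 ^ p.e = C bI * (C (C (ε ^ e')) * F 1) + G' * (C (C (ε ^ e')) * F 2) := by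
    refine conv_inj ?_
    rw [map_add, map_mul (conv_mm k) (C bI), map_mul (conv_mm k) G', hHI, hRI, map_pow, hF0,
      hbC, hG', he', mul_pow, hR₀']
    linear_combination (-(E ^ (e' + 1) * C p.b * φ p.H)) * hgg -
      (E ^ (e' + 1) * φ G * φ R₀) * hnn
  -- the third relation
  obtain ⟨c₁, c₂, c₃, hc⟩ := conv_triple p.hH
  have hc' : φ c₁ * C p.b + φ c₂ * φ p.h + φ c₃ * φ p.H = 1 := by
    have h3 := congrArg φ hc
    rw [map_add, map_add, map_mul, map_mul, map_mul, hφC, map_one] at h3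
    exact h3
  obtain ⟨d₂, P₂, hd₂, h3⟩ := conv_comb
    ![g' * φ c₁, a' * φ c₂, E' ^ (e' + 1) * g * φ c₃]
    ![C bI, hI, C (C (ε ^ e')) * F 1] 1 (by
    rw [Fin.sum_univ_three]
    simp only [Matrix.cons_val_zero, Matrix.cons_val_one, Matrix.cons_val_two,
      Matrix.tail_cons, Matrix.head_cons]
    rw [hbC, hhI, hHI, map_one, ← hc']
    linear_combination (φ c₁ * C p.b) * hgg + (φ c₂ * φ p.h) * haa +
      (φ c₃ * φ p.H * g * g') * hEE' + (φ c₃ * φ p.H) * hgg)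
  rw [Fin.sum_univ_three, mul_one] at h3
  simp only [Matrix.cons_val_zero, Matrix.cons_val_one, Matrix.cons_val_two,
    Matrix.tail_cons, Matrix.head_cons] at h3
  -- the fourth relation
  obtain ⟨s₁, s₂, s₃, hs⟩ := conv_triple p.hsep
  have hder : derivative (φ p.h) = t' * φ (derivative p.h) := by
    rw [hφa, hφa, derivative_comp, ht', derivative_C_mul, derivative_X, mul_one]
  have hs' : φ s₁ * C p.b + φ s₂ * φ p.h + φ s₃ * φ (derivative p.h) = 1 := by
    have h4 := congrArg φ hs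
    rw [map_add, map_add, map_mul, map_mul, map_mul, hφC, map_one] at h4
    exact h4
  have hdI : conv_mm k (derivative hI) = a * (t' * φ (derivative p.h)) := by
    have h4 : conv_mm k (derivative hI) = derivative (conv_mm k hI) :=
      (derivative_map hI _).symm
    rw [h4, hhI, ha, derivative_C_mul, hder]
  obtain ⟨d₃, P₃, hd₃, h4⟩ := conv_comb
    ![g' * φ s₁, a' * φ s₂, a' * t * φ s₃] ![C bI, hI, derivative hI] 1 (by
    rw [Fin.sum_univ_three]
    simp only [Matrix.cons_val_zero, Matrix.cons_val_one, Matrix.cons_val_two,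
      Matrix.tail_cons, Matrix.head_cons]
    rw [hbC, hhI, hdI, map_one, ← hs']
    linear_combination (φ s₁ * C p.b) * hgg + (φ s₂ * φ p.h) * haa +
      (φ s₃ * φ (derivative p.h) * a * a') * htt + (φ s₃ * φ (derivative p.h)) * haa)
  rw [Fin.sum_univ_three, mul_one] at h4
  simp only [Matrix.cons_val_zero, Matrix.cons_val_one, Matrix.cons_val_two,
    Matrix.tail_cons, Matrix.head_cons] at h4
  -- degree and leading coefficient
  have hCδ : (C (δ : k) : k[X]) ≠ 0 := C_ne_zero.2 hδk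
  have hCβ : (C (β : k)⁻¹ : k[X]) ≠ 0 := C_ne_zero.2 (inv_ne_zero hβk)
  have hdeg : hI.natDegree = p.f := by
    have h5 : (conv_mm k hI).natDegree = hI.natDegree :=
      natDegree_map_eq_of_injective conv_iota_inj hI
    rw [← h5, hhI, ha, natDegree_C_mul hCδ, hφa, natDegree_comp, natDegree_C_mul_X _ hCβ,
      mul_one, p.hf]
  have hlc : hI.leadingCoeff.map (algebraMap (𝓞 k) k) =
      C ((δ : k) * (β : k)⁻¹ ^ p.h.natDegree) := by
    have h5 : (conv_mm k hI).leadingCoeff = hI.leadingCoeff.map (algebraMap (𝓞 k) k) :=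
      leadingCoeff_map_of_injective conv_iota_inj hI
    have h6 : (C (C (β : k)⁻¹) * X : k[X][X]).natDegree ≠ 0 := by
      rw [natDegree_C_mul_X _ hCβ]
      exact one_ne_zero
    rw [← h5, hhI, ha, leadingCoeff_mul, leadingCoeff_C, hφa, leadingCoeff_comp h6,
      p.hmon.leadingCoeff, one_mul, leadingCoeff_mul, leadingCoeff_C, leadingCoeff_X, mul_one,
      C_mul, C_pow]
  have hlc0 : hI.leadingCoeff.natDegree = 0 := by
    rw [← natDegree_map_eq_of_injective (RingOfIntegers.coe_injective (K := k)), hlc,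
      natDegree_C]
  have hlead : hI.leadingCoeff = C (hI.leadingCoeff.coeff 0) := eq_C_of_natDegree_eq_zero hlc0
  have hlead0 : hI.leadingCoeff.coeff 0 ≠ 0 := by
    intro h0
    rw [h0, C_0] at hlead
    rw [hlead, Polynomial.map_zero] at hlc
    exact C_ne_zero.2 (mul_ne_zero hδk (pow_ne_zero _ (inv_ne_zero hβk))) hlc.symm
  have hbI0 : bI ≠ 0 := by
    rintro rfl
    rw [Polynomial.map_zero] at hbI
    exact mul_ne_zero (C_ne_zero.2 hγk) p.irr.ne_zero hbI.symm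
  refine ⟨⟨bI, p.e, p.f, hI, P₁ 1, P₁ 0, F 0, C (C (ε ^ e')) * F 1, C (C (ε ^ e')) * F 2,
    P₂ 0, P₂ 1, P₂ 2, P₃ 0, P₃ 1, P₃ 2, d₁, d₂, d₃, p.he, hdeg, hd₁, hd₂, hd₃, hbI0,
    hI.leadingCoeff.coeff 0, hlead0, hlead, ?_, h2, h3, h4⟩, ⟨rfl, rfl, γ, hγk, hbI⟩, δ, hδk, ?_⟩
  · rw [← h1]
    ring
  · rw [← ha]
    exact hhI

end

theorem exists_conv (k : Type) [Field k] [NumberField k] (G : k[X][X]) (hG : G.Monic) {s : ℕ}
    (p : Fin s → RamPt k G)
    (hco : ∀ i j, i ≠ j → Ideal.span {C (p i).b, (p i).h, C (p j).b, (p j).h} = ⊤) :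
    ∃ (β : 𝓞 k) (G' : (𝓞 k)[X][X]) (p' : Fin s → Pt k G'), β ≠ 0 ∧ G'.Monic ∧
      G'.natDegree = G.natDegree ∧
      G'.map (mapRingHom (algebraMap (𝓞 k) k)) = G.scaleRoots (C (β : k)) ∧
      (∀ i, (p' i).e = (p i).e ∧ (p' i).f = (p i).f ∧ ∃ γ : k, γ ≠ 0 ∧
        (p' i).b.map (algebraMap (𝓞 k) k) = C γ * (p i).b) ∧
      ∀ i j, i ≠ j → ∃ (A B A' B' : (𝓞 k)[X][X]) (d : 𝓞 k), d ≠ 0 ∧
        A * C (p' i).b + B * (p' i).h + A' * C (p' j).b + B' * (p' j).h = C (C d) := by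
  obtain ⟨β, G₁, hβ, hG₁⟩ := conv_clear1 G
  have hβk := conv_ne hβ
  have hcoef : ∀ i, mapRingHom (algebraMap (𝓞 k) k) (G₁.coeff i) = C (β : k) * G.coeff i := by
    intro i
    have h1 := congrArg (fun F : k[X][X] => F.coeff i) hG₁
    have h2 : (conv_mm k G₁).coeff i = mapRingHom (algebraMap (𝓞 k) k) (G₁.coeff i) :=
      coeff_map _ i
    rw [← h2]
    show (conv_mm k G₁).coeff i = _
    rw [hG₁, coeff_C_mul]
  have hlift : G.scaleRoots (C (β : k)) ∈ lifts (mapRingHom (algebraMap (𝓞 k) k)) := by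
    rw [lifts_iff_coeff_lifts]
    intro i
    rw [coeff_scaleRoots]
    rcases lt_trichotomy i G.natDegree with hi | hi | hi
    · obtain ⟨j, hj⟩ : ∃ j, G.natDegree - i = j + 1 := ⟨G.natDegree - i - 1, by omega⟩
      refine ⟨G₁.coeff i * C β ^ j, ?_⟩
      rw [map_mul, hcoef, hj, map_pow, coe_mapRingHom, Polynomial.map_C]
      ring
    · refine ⟨1, ?_⟩
      rw [map_one, hi, Nat.sub_self, pow_zero, mul_one]
      exact hG.symm
    · refine ⟨0, ?_⟩
      rw [map_zero, coeff_eq_zero_of_natDegree_lt hi, zero_mul]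
  obtain ⟨G', hG'⟩ := (mem_lifts _).1 hlift
  have hmon : G'.Monic := by
    refine monic_of_injective conv_iota_inj ?_
    rw [hG', monic_scaleRoots_iff]
    exact hG
  have hdeg : G'.natDegree = G.natDegree := by
    rw [← natDegree_map_eq_of_injective conv_iota_inj, hG', natDegree_scaleRoots]
  have hGφ : conv_mm k G' = C (C ((β : k) ^ G.natDegree)) * conv_phi ((β : k)⁻¹) G := by
    have h1 : conv_mm k G' = G.scaleRoots (C (β : k)) := hG'
    rw [h1]
    ext1 i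
    rw [coeff_scaleRoots, coeff_C_mul, conv_phi_apply, comp_C_mul_X_coeff]
    rcases le_or_gt i G.natDegree with hi | hi
    · have h2 : (C (β : k) : k[X]) ^ (G.natDegree - i) =
          C ((β : k) ^ G.natDegree) * C (β : k)⁻¹ ^ i := by
        rw [← C_pow, ← C_pow, ← C_mul]
        congr 1
        rw [pow_sub₀ _ hβk hi, inv_pow]
      rw [h2]
      ring
    · rw [coeff_eq_zero_of_natDegree_lt hi, zero_mul, zero_mul, mul_zero]
  choose p' h1 h2 using fun i => conv_pt hβ hGφ (p i)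
  refine ⟨β, G', p', hβ, hmon, hdeg, hG', h1, fun i j hij => ?_⟩
  obtain ⟨γ, hγ, hbi⟩ := (h1 i).2.2
  obtain ⟨γ', hγ', hbj⟩ := (h1 j).2.2
  obtain ⟨δ, hδ, hhi⟩ := h2 i
  obtain ⟨δ', hδ', hhj⟩ := h2 j
  obtain ⟨a₁, a₂, a₃, a₄, ha⟩ := conv_quad (hco i j hij)
  have ha' : conv_phi ((β : k)⁻¹) a₁ * C (p i).b +
      conv_phi ((β : k)⁻¹) a₂ * conv_phi ((β : k)⁻¹) (p i).h +
      conv_phi ((β : k)⁻¹) a₃ * C (p j).b +
      conv_phi ((β : k)⁻¹) a₄ * conv_phi ((β : k)⁻¹) (p j).h = 1 := by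
    have h3 := congrArg (conv_phi ((β : k)⁻¹)) ha
    rw [map_add, map_add, map_add, map_mul, map_mul, map_mul, map_mul, conv_phi_C, conv_phi_C,
      map_one] at h3
    exact h3
  obtain ⟨d, Q, hd, hQ⟩ := conv_comb
    ![C (C γ⁻¹) * conv_phi ((β : k)⁻¹) a₁, C (C δ⁻¹) * conv_phi ((β : k)⁻¹) a₂,
      C (C γ'⁻¹) * conv_phi ((β : k)⁻¹) a₃, C (C δ'⁻¹) * conv_phi ((β : k)⁻¹) a₄]
    ![C (p' i).b, (p' i).h, C (p' j).b, (p' j).h] 1 (by
    rw [Fin.sum_univ_four]
    simp only [Matrix.cons_val_zero, Matrix.cons_val_one, Matrix.cons_val_two,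
      Matrix.cons_val_three, Matrix.tail_cons, Matrix.head_cons]
    rw [conv_C, conv_C, hbi, hbj, hhi, hhj, map_one, ← ha', C_mul, C_mul]
    linear_combination (conv_phi ((β : k)⁻¹) a₁ * C (p i).b) * conv_cc_inv hγ +
      (conv_phi ((β : k)⁻¹) a₂ * conv_phi ((β : k)⁻¹) (p i).h) * conv_cc_inv hδ +
      (conv_phi ((β : k)⁻¹) a₃ * C (p j).b) * conv_cc_inv hγ' +
      (conv_phi ((β : k)⁻¹) a₄ * conv_phi ((β : k)⁻¹) (p j).h) * conv_cc_inv hδ')
  rw [Fin.sum_univ_four, mul_one] at hQ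
  exact ⟨Q 0, Q 1, Q 2, Q 3, d, hd, hQ⟩

end Pool.Agent.RPT
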