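import Pool.Agent.RPT.Int

/-!
# Different points give coprime ideals

HINTS. If the sum of the two ideals is not `⊤`, let `Q` be a maximal ideal containing it. `Q`
contains `q`, so `Q ∩ 𝓞 L = q`; choose `j ∈ denIdealOf x`, `j ∉ q` (otherwise `SS.lead_mem` puts the
leading coefficient of `b`, a divisor of `p.bad`, into `q`), and `N` large for all polynomials
involved (`exists_int`): the elements `b(x) j ^ N`, `b'(x) j ^ N` lie in `q` (from `zf b x ≤ q`,
`zf b' x ≤ q`), `h(x,y) j ^ N`, `h'(x,y) j ^ N` lie in `Q` (they lie in `rr`). The identity `hB`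
evaluated at `(x, y)` and multiplied by `j ^ (2 N)` gives `d * j ^ (2 N) ∈ Q`, so `d ∈ q`
or `j ∈ q`, a contradiction.
-/

set_option autoImplicit false

open Polynomial NumberField Module

namespace Pool.Agent.RPT

private theorem cop_ev_C {k L K : Type} [Field k] [NumberField k] [Field L] [NumberField L]
    [Algebra k L] [Field K] [NumberField K] [Algebra L K] (f : (𝓞 k)[X]) (x : L) (y : K) :
    ev x y (C f) = algebraMap L K (aeval x (f.map (algebraMap (𝓞 k) k))) := by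
  unfold ev
  rw [coe_eval₂RingHom, eval₂_C, RingHom.comp_apply, coe_eval₂RingHom, aeval_def, eval₂_map]

private theorem cop_coe {L K : Type} [Field L] [NumberField L] [Field K] [NumberField K]
    [Algebra L K] (u : 𝓞 L) :
    ((algebraMap (𝓞 L) (𝓞 K) u : 𝓞 K) : K) = algebraMap L K (u : L) := by
  have h1 := IsScalarTower.algebraMap_apply (𝓞 L) (𝓞 K) K u
  have h2 := IsScalarTower.algebraMap_apply (𝓞 L) L K u
  exact h1.symm.trans h2

/-- an element above the value of a polynomial in `X` -/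
private theorem cop_zero {k L K : Type} [Field k] [NumberField k] [Field L] [NumberField L]
    [Algebra k L] [Field K] [NumberField K] [Algebra L K] (f : (𝓞 k)[X]) (x : L) (y : K)
    (q : Ideal (𝓞 L)) (hz : SS.zf f x ≤ q) (j : 𝓞 L) (hj : j ∈ RefW.denIdealOf x) (N : ℕ)
    (hN : f.natDegree ≤ N) : ∃ u ∈ q, ((algebraMap (𝓞 L) (𝓞 K) u : 𝓞 K) : K) =
      ev x y (C f) * algebraMap L K (j : L) ^ N := by
  have h1 : j ^ N ∈ (RefW.denIdealOf x) ^ f.natDegree := by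
    have h2 : N = f.natDegree + (N - f.natDegree) := by omega
    rw [h2, pow_add]
    exact Ideal.mul_mem_right _ _ (Ideal.pow_mem_pow hj _)
  obtain ⟨u, hu⟩ := SS.eval_int f x f.natDegree le_rfl _ h1
  refine ⟨u, hz ⟨_, h1, hu⟩, ?_⟩
  have h3 : ((j ^ N : 𝓞 L) : L) = (j : L) ^ N := rfl
  rw [cop_coe, hu, cop_ev_C, map_mul, h3, map_pow]

theorem rr_coprime {k L K : Type} [Field k] [NumberField k] [Field L] [NumberField L]
    [Algebra k L] [Field K] [NumberField K] [Algebra L K] (G : (𝓞 k)[X][X]) (hG : G.Monic)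
    (p p' : Pt k G) (A B A' B' : (𝓞 k)[X][X]) (d : 𝓞 k)
    (hB : A * C p.b + B * p.h + A' * C p'.b + B' * p'.h = C (C d)) (x : L) (y : K)
    (hy : ev x y G = 0) (q : Ideal (𝓞 L)) (hq : q.IsMaximal)
    (hbad : algebraMap (𝓞 k) (𝓞 L) p.bad ∉ q) (hd : algebraMap (𝓞 k) (𝓞 L) d ∉ q)
    (hz : SS.zf p.b x ≤ q) (hz' : SS.zf p'.b x ≤ q) :
    rr q x y p.h ⊔ rr q x y p'.h = ⊤ := by
  by_contra hne
  obtain ⟨Q, hQ, hQle⟩ := Ideal.exists_le_maximal _ hne
  have hr : rr q x y p.h ≤ Q := le_sup_left.trans hQle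
  have hr' : rr q x y p'.h ≤ Q := le_sup_right.trans hQle
  have hmap : q.map (algebraMap (𝓞 L) (𝓞 K)) ≤ Q :=
    (le_sup_left.trans Ideal.le_radical).trans hr
  have hcomap : Q.comap (algebraMap (𝓞 L) (𝓞 K)) = q := by
    refine (hq.eq_of_le (Ideal.comap_ne_top _ hQ.ne_top) ?_).symm
    exact Ideal.map_le_iff_le_comap.1 hmap
  have hqp : q.IsPrime := hq.isPrime
  -- an element of the denominator ideal outside `q`
  have hj : ∃ j ∈ RefW.denIdealOf x, j ∉ q := by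
    by_contra hcon
    have hle : RefW.denIdealOf x ≤ q := fun j hj => by
      by_contra hjq
      exact hcon ⟨j, hj, hjq⟩
    have h1 := SS.lead_mem p.b x q hle hz
    apply hbad
    unfold Pt.bad
    rw [map_mul, map_mul]
    exact Ideal.mul_mem_right _ _ (Ideal.mul_mem_left _ _ h1)
  obtain ⟨j, hj, hjq⟩ := hj
  obtain ⟨N₁, h1⟩ := exists_int G hG A
  obtain ⟨N₂, h2⟩ := exists_int G hG B
  obtain ⟨N₃, h3⟩ := exists_int G hG A'
  obtain ⟨N₄, h4⟩ := exists_int G hG B'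
  obtain ⟨N₅, h5⟩ := exists_int G hG p.h
  obtain ⟨N₆, h6⟩ := exists_int G hG p'.h
  obtain ⟨N, hN⟩ : ∃ N, N = N₁ + N₂ + N₃ + N₄ + N₅ + N₆ + p.b.natDegree + p'.b.natDegree :=
    ⟨_, rfl⟩
  obtain ⟨a, ha⟩ := h1 N (by omega) L K x y hy j hj
  obtain ⟨b, hb⟩ := h2 N (by omega) L K x y hy j hj
  obtain ⟨a', ha'⟩ := h3 N (by omega) L K x y hy j hj
  obtain ⟨b', hb'⟩ := h4 N (by omega) L K x y hy j hj
  obtain ⟨c, hc⟩ := h5 N (by omega) L K x y hy j hj
  obtain ⟨c', hc'⟩ := h6 N (by omega) L K x y hy j hj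
  obtain ⟨u, huq, hu⟩ := cop_zero p.b x y q hz j hj N (by omega)
  obtain ⟨u', huq', hu'⟩ := cop_zero p'.b x y q hz' j hj N (by omega)
  have hcQ : c ∈ Q := hr (Ideal.le_radical (Ideal.mem_sup_right
    (Ideal.subset_span ⟨j, hj, N, hc⟩)))
  have hcQ' : c' ∈ Q := hr' (Ideal.le_radical (Ideal.mem_sup_right
    (Ideal.subset_span ⟨j, hj, N, hc'⟩)))
  have huQ : algebraMap (𝓞 L) (𝓞 K) u ∈ Q := hmap (Ideal.mem_map_of_mem _ huq)
  have huQ' : algebraMap (𝓞 L) (𝓞 K) u' ∈ Q := hmap (Ideal.mem_map_of_mem _ huq')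
  have key : algebraMap (𝓞 L) (𝓞 K) (algebraMap (𝓞 k) (𝓞 L) d * j ^ (2 * N)) =
      a * algebraMap (𝓞 L) (𝓞 K) u + b * c + a' * algebraMap (𝓞 L) (𝓞 K) u' + b' * c' := by
    apply RingOfIntegers.ext
    have e1 : ((algebraMap (𝓞 L) (𝓞 K) (algebraMap (𝓞 k) (𝓞 L) d * j ^ (2 * N)) : 𝓞 K) : K) =
        algebraMap L K (algebraMap k L (algebraMap (𝓞 k) k d)) *
          algebraMap L K (j : L) ^ (2 * N) := by
      have h0 : ((algebraMap (𝓞 k) (𝓞 L) d * j ^ (2 * N) : 𝓞 L) : L) =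
          ((algebraMap (𝓞 k) (𝓞 L) d : 𝓞 L) : L) * (j : L) ^ (2 * N) := rfl
      rw [cop_coe, h0, map_mul, map_pow, cop_coe]
    have e2 : ((a * algebraMap (𝓞 L) (𝓞 K) u + b * c + a' * algebraMap (𝓞 L) (𝓞 K) u' +
        b' * c' : 𝓞 K) : K) = (a : K) * ((algebraMap (𝓞 L) (𝓞 K) u : 𝓞 K) : K) +
        (b : K) * (c : K) + (a' : K) * ((algebraMap (𝓞 L) (𝓞 K) u' : 𝓞 K) : K) +
          (b' : K) * (c' : K) := rfl
    have e3 := congrArg (ev x y) hB
    rw [map_add, map_add, map_add, map_mul, map_mul, map_mul, map_mul, cop_ev_C (C d)] at e3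
    have e4 : aeval x ((C d : (𝓞 k)[X]).map (algebraMap (𝓞 k) k)) =
        algebraMap k L (algebraMap (𝓞 k) k d) := by
      rw [map_C, aeval_C]
    rw [e4] at e3
    rw [e1, e2, ha, hb, ha', hb', hc, hc', hu, hu', ← e3]
    ring
  have hmem : algebraMap (𝓞 k) (𝓞 L) d * j ^ (2 * N) ∈ q := by
    rw [← hcomap, Ideal.mem_comap, key]
    exact Ideal.add_mem _ (Ideal.add_mem _ (Ideal.add_mem _ (Ideal.mul_mem_left _ _ huQ)
      (Ideal.mul_mem_left _ _ hcQ)) (Ideal.mul_mem_left _ _ huQ')) (Ideal.mul_mem_left _ _ hcQ')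
  rcases hqp.mem_or_mem hmem with h7 | h7
  · exact hd h7
  · exact hjq (hqp.mem_of_pow_mem _ h7)

end Pool.Agent.RPT
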