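import Pool.Agent.OnePt.Simple
import Pool.Agent.SS.Disc

/-!
# Ramified points: definitions

`L` is a number field over `k`, `x ∈ L`, `K` a number field over `L` and `y ∈ K`.
-/

set_option autoImplicit false

open Polynomial NumberField Module

namespace Pool.Agent.RPT

section

variable {k L K : Type} [Field k] [NumberField k] [Field L] [NumberField L] [Algebra k L]
  [Field K] [NumberField K] [Algebra L K]

/-- the evaluation of a polynomial in two variables at `(x, y)` -/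
noncomputable def ev (x : L) (y : K) : (𝓞 k)[X][X] →+* K :=
  eval₂RingHom ((algebraMap L K).comp
    (eval₂RingHom ((algebraMap k L).comp (algebraMap (𝓞 k) k)) x)) y

/-- the product of the prime ideals of `K` above `q` which contain the value of `h` -/
noncomputable def rr (q : Ideal (𝓞 L)) (x : L) (y : K) (h : (𝓞 k)[X][X]) : Ideal (𝓞 K) :=
  (q.map (algebraMap (𝓞 L) (𝓞 K)) ⊔ Ideal.span {w : 𝓞 K | ∃ j ∈ RefW.denIdealOf x, ∃ N : ℕ,
    (w : K) = ev x y h * algebraMap L K (j : L) ^ N}).radical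

end

/-- the data of a ramified point of the curve `G = 0`, with integral coefficients: over the zeros of
`b`, the point is given by `h`, its degree over the zeros is `f`, its ramification index is `e` -/
structure Pt (k : Type) [Field k] [NumberField k] (G : (𝓞 k)[X][X]) where
  b : (𝓞 k)[X]
  e : ℕ
  f : ℕ
  h : (𝓞 k)[X][X]
  h₂ : (𝓞 k)[X][X]
  R : (𝓞 k)[X][X]
  μ : (𝓞 k)[X][X]
  H : (𝓞 k)[X][X]
  R' : (𝓞 k)[X][X]
  α : (𝓞 k)[X][X]
  β : (𝓞 k)[X][X]
  γ : (𝓞 k)[X][X]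
  α' : (𝓞 k)[X][X]
  β' : (𝓞 k)[X][X]
  γ' : (𝓞 k)[X][X]
  d₁ : 𝓞 k
  d₂ : 𝓞 k
  d₃ : 𝓞 k
  he : 2 ≤ e
  hf : h.natDegree = f
  hd₁ : d₁ ≠ 0
  hd₂ : d₂ ≠ 0
  hd₃ : d₃ ≠ 0
  hb : b ≠ 0
  lead : 𝓞 k
  hlead : lead ≠ 0
  hh : h.leadingCoeff = C lead
  h1 : C (C d₁) * G = h * h₂ + C b * R
  h2 : μ ^ e = C b * H + G * R'
  h3 : α * C b + β * h + γ * H = C (C d₂)
  h4 : α' * C b + β' * h + γ' * derivative h = C (C d₃)

/-- the bad constant of a point -/
noncomputable def Pt.bad {k : Type} [Field k] [NumberField k] {G : (𝓞 k)[X][X]} (p : Pt k G) :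
    𝓞 k :=
  p.d₁ * p.d₂ * p.d₃ * p.b.leadingCoeff * p.lead

end Pool.Agent.RPT
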