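import Pool.Agent.RPT.Int

/-!
# The norm of the product of the prime ideals above a ramified point

For `j ∈ denIdealOf x` outside `q` let `x'` be the residue of `x`, `h'(Y) = h(x', Y)`, a squarefree
polynomial of degree `f` over the residue field which divides `G(x', Y)`. For an irreducible factor
`π` of `h'` with the root `ρ` the evaluation at `ρ` is defined on `(𝓞 L)[yh]`, `yh = j ^ N₁ y`; its
kernel has a prime ideal of `𝓞 K` above it (lying over), which contains `rr`. So a polynomial `P`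
over `𝓞 L` of degree `< f` with `P(yh) ∈ rr` has all coefficients in `q`, and the map
`(𝓞 L ⧸ q) ^ f → 𝓞 K ⧸ rr` is injective.
-/

set_option autoImplicit false

open Polynomial NumberField Module

namespace Pool.Agent.RPT

set_option linter.unusedSectionVars false

section norm_pol

variable {k L : Type} [Field k] [NumberField k] [Field L] [NumberField L] [Algebra k L]

/-- the homogeneous form of a polynomial -/
private noncomputable def norm_hm (j t : 𝓞 L) (a : (𝓞 k)[X]) (M : ℕ) : 𝓞 L :=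
  ∑ i ∈ Finset.range (M + 1), algebraMap (𝓞 k) (𝓞 L) (a.coeff i) * t ^ i * j ^ (M - i)

private theorem norm_hm_map {F : Type} [CommRing F] (θ : 𝓞 L →+* F) (ξ : F) (j t : 𝓞 L)
    (ht : θ t = θ j * ξ) (a : (𝓞 k)[X]) (M : ℕ) (ha : a.natDegree ≤ M) :
    θ (norm_hm j t a M) = eval₂ (θ.comp (algebraMap (𝓞 k) (𝓞 L))) ξ a * (θ j) ^ M := by
  unfold norm_hm
  rw [map_sum, eval₂_eq_sum_range' _ (n := M + 1) (by omega), Finset.sum_mul]
  refine Finset.sum_congr rfl fun i hi => ?_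
  rw [Finset.mem_range] at hi
  rw [map_mul, map_mul, map_pow, map_pow, ht, mul_pow, RingHom.comp_apply]
  have e : (θ j) ^ M = (θ j) ^ i * (θ j) ^ (M - i) := by
    rw [← pow_add]
    congr 1
    omega
  rw [e]
  ring

/-- the homogeneous form of a polynomial in two variables -/
private noncomputable def norm_pl (j t : 𝓞 L) (N₁ : ℕ) (F : (𝓞 k)[X][X]) (M : ℕ) : (𝓞 L)[X] :=
  ∑ l ∈ Finset.range (F.natDegree + 1), C (norm_hm j t (F.coeff l) (M - N₁ * l)) * X ^ l

private theorem norm_pl_map {F' : Type} [CommRing F'] (θ : 𝓞 L →+* F') (E : (𝓞 k)[X] →+* F')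
    (j t : 𝓞 L) (hE : ∀ (a : (𝓞 k)[X]) (M : ℕ), a.natDegree ≤ M →
      θ (norm_hm j t a M) = E a * (θ j) ^ M) (η : F') (N₁ M : ℕ) (F : (𝓞 k)[X][X])
    (hM : ∀ l ≤ F.natDegree, (F.coeff l).natDegree + N₁ * l ≤ M) :
    eval₂ θ (η * (θ j) ^ N₁) (norm_pl j t N₁ F M) = eval₂ E η F * (θ j) ^ M := by
  unfold norm_pl
  rw [eval₂_finsetSum, eval₂_eq_sum_range, Finset.sum_mul]
  refine Finset.sum_congr rfl fun l hl => ?_
  rw [Finset.mem_range] at hl
  have h1 := hM l (by omega)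
  rw [eval₂_mul, eval₂_C, eval₂_pow, eval₂_X, hE _ _ (by omega), mul_pow, ← pow_mul]
  have e : (θ j) ^ M = (θ j) ^ (M - N₁ * l) * (θ j) ^ (N₁ * l) := by
    rw [← pow_add]
    congr 1
    omega
  rw [e]
  ring

private theorem norm_pl_coeff (j t : 𝓞 L) (N₁ : ℕ) (F : (𝓞 k)[X][X]) (M l : ℕ) :
    (norm_pl j t N₁ F M).coeff l =
      if l ≤ F.natDegree then norm_hm j t (F.coeff l) (M - N₁ * l) else 0 := by
  unfold norm_pl
  rw [finsetSum_coeff]
  simp only [coeff_C_mul, coeff_X_pow, mul_ite, mul_one, mul_zero]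
  rw [Finset.sum_ite_eq]
  simp only [Finset.mem_range, Nat.lt_succ_iff]

private theorem norm_pl_monic (j t : 𝓞 L) (N₁ : ℕ) (F : (𝓞 k)[X][X]) (hF : F.Monic) :
    (norm_pl j t N₁ F (N₁ * F.natDegree)).Monic ∧
      (norm_pl j t N₁ F (N₁ * F.natDegree)).natDegree = F.natDegree := by
  have h1 : (norm_pl j t N₁ F (N₁ * F.natDegree)).coeff F.natDegree = 1 := by
    rw [norm_pl_coeff, if_pos le_rfl, Nat.sub_self]
    have : F.coeff F.natDegree = 1 := hF
    rw [this]
    unfold norm_hm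
    simp
  have h2 : (norm_pl j t N₁ F (N₁ * F.natDegree)).natDegree ≤ F.natDegree := by
    rw [natDegree_le_iff_coeff_eq_zero]
    intro l hl
    rw [norm_pl_coeff, if_neg (by omega)]
  have h3 : (norm_pl j t N₁ F (N₁ * F.natDegree)).natDegree = F.natDegree := by
    refine le_antisymm h2 (le_natDegree_of_ne_zero ?_)
    rw [h1]
    exact one_ne_zero
  refine ⟨?_, h3⟩
  unfold Monic leadingCoeff
  rw [h3, h1]

end norm_pol

/-- a squarefree polynomial divides if its irreducible factors do -/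
private theorem norm_sqf {κ : Type} [Field κ] (h T : κ[X]) (hs : Squarefree h)
    (H : ∀ π : κ[X], Irreducible π → π ∣ h → π ∣ T) : h ∣ T := by
  classical
  have h0 : h ≠ 0 := hs.ne_zero
  obtain ⟨h1, e1⟩ := EuclideanDomain.gcd_dvd_left h T
  by_cases hu : IsUnit h1
  · obtain ⟨u, rfl⟩ := hu
    have h2 : h ∣ EuclideanDomain.gcd h T := by
      rw [e1, Units.mul_right_dvd]
      rw [← e1]
    exact h2.trans (EuclideanDomain.gcd_dvd_right h T)
  · exfalso
    have h10 : h1 ≠ 0 := by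
      rintro rfl
      exact h0 (by rw [e1, mul_zero])
    obtain ⟨π, hπ, hd⟩ := WfDvdMonoid.exists_irreducible_factor hu h10
    have hπh : π ∣ h := by
      rw [e1]
      exact hd.mul_left _
    have h3 : π ∣ EuclideanDomain.gcd h T :=
      EuclideanDomain.dvd_gcd hπh (H π hπ hπh)
    have h4 : π * π ∣ h := by
      rw [e1]
      exact mul_dvd_mul h3 hd
    exact hπ.not_isUnit (hs π h4)

section norm_core

variable {k L K : Type} [Field k] [NumberField k] [Field L] [NumberField L]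
    [Algebra k L] [Field K] [NumberField K] [Algebra L K]

/-- the inner evaluation -/
private noncomputable def norm_E (x : L) : (𝓞 k)[X] →+* K :=
  (algebraMap L K).comp (eval₂RingHom ((algebraMap k L).comp (algebraMap (𝓞 k) k)) x)

private theorem norm_hE (x : L) (j t : 𝓞 L) (ht : (t : L) = (j : L) * x) (a : (𝓞 k)[X]) (M : ℕ)
    (ha : a.natDegree ≤ M) : ((norm_hm j t a M : 𝓞 L) : L) =
      eval₂ ((algebraMap k L).comp (algebraMap (𝓞 k) k)) x a * (j : L) ^ M := by
  have h1 := norm_hm_map (k := k) (algebraMap (𝓞 L) L) x j t ht a M ha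
  have e : (algebraMap (𝓞 L) L).comp (algebraMap (𝓞 k) (𝓞 L)) =
      (algebraMap k L).comp (algebraMap (𝓞 k) k) := by
    rw [← IsScalarTower.algebraMap_eq (𝓞 k) (𝓞 L) L, ← IsScalarTower.algebraMap_eq (𝓞 k) k L]
  rw [e] at h1
  exact h1

private theorem norm_hEK (x : L) (j t : 𝓞 L) (ht : (t : L) = (j : L) * x) (a : (𝓞 k)[X]) (M : ℕ)
    (ha : a.natDegree ≤ M) : ((algebraMap L K).comp (algebraMap (𝓞 L) L)) (norm_hm j t a M) =
      norm_E (K := K) x a * (((algebraMap L K).comp (algebraMap (𝓞 L) L)) j) ^ M := by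
  rw [RingHom.comp_apply, RingHom.comp_apply, ← map_pow]
  have h1 := norm_hE x j t ht a M ha
  change algebraMap L K ((norm_hm j t a M : 𝓞 L) : L) = _
  rw [h1, map_mul]
  rfl

private theorem norm_ev (x : L) (y : K) (F : (𝓞 k)[X][X]) :
    ev x y F = eval₂ (norm_E (K := K) x) y F := rfl

/-- the value at the multiple of `y` -/
private theorem norm_aeval (x : L) (y : K) (j t : 𝓞 L) (ht : (t : L) = (j : L) * x) (N₁ : ℕ)
    (yh : 𝓞 K) (hyh : (yh : K) = y * algebraMap L K (j : L) ^ N₁) (F : (𝓞 k)[X][X]) (M : ℕ)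
    (hM : ∀ l ≤ F.natDegree, (F.coeff l).natDegree + N₁ * l ≤ M) :
    ((aeval yh (norm_pl j t N₁ F M) : 𝓞 K) : K) = ev x y F * algebraMap L K (j : L) ^ M := by
  have h1 := norm_pl_map ((algebraMap L K).comp (algebraMap (𝓞 L) L)) (norm_E (K := K) x) j t
    (fun a M ha => norm_hEK x j t ht a M ha) y N₁ M F hM
  rw [norm_ev]
  have h2 : ((aeval yh (norm_pl j t N₁ F M) : 𝓞 K) : K) =
      eval₂ ((algebraMap L K).comp (algebraMap (𝓞 L) L)) (yh : K) (norm_pl j t N₁ F M) := by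
    rw [aeval_def]
    change algebraMap (𝓞 K) K _ = _
    rw [hom_eval₂]
    congr 1
  rw [h2, hyh]
  exact h1


/-- the residue map at `x` -/
private noncomputable def norm_R {κ : Type} [Field κ] (r : 𝓞 L →+* κ) (ξ : κ) : (𝓞 k)[X] →+* κ :=
  eval₂RingHom (r.comp (algebraMap (𝓞 k) (𝓞 L))) ξ

/-- the evaluation in an extension of the residue field -/
private theorem norm_phi {κ κ' : Type} [Field κ] [Field κ'] (r : 𝓞 L →+* κ) (ξ : κ)
    (o : κ →+* κ') (ρ : κ') (j t : 𝓞 L) (hrt : r t = r j * ξ) (N₁ : ℕ) (F : (𝓞 k)[X][X]) (M : ℕ)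
    (hM : ∀ l ≤ F.natDegree, (F.coeff l).natDegree + N₁ * l ≤ M) :
    eval₂ (o.comp r) (ρ * (o (r j)) ^ N₁) (norm_pl j t N₁ F M) =
      eval₂ o ρ (F.map (norm_R r ξ)) * (o (r j)) ^ M := by
  have h1 := norm_pl_map (k := k) (o.comp r) (o.comp (norm_R r ξ)) j t (by
    intro a M ha
    have h2 := norm_hm_map (k := k) (o.comp r) (o ξ) j t (by
      rw [RingHom.comp_apply, RingHom.comp_apply, hrt, map_mul]) a M ha
    rw [h2]
    congr 1
    unfold norm_R
    rw [RingHom.comp_apply, coe_eval₂RingHom, hom_eval₂]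
    rfl) ρ N₁ M F hM
  rw [eval₂_map]
  exact h1

private theorem norm_gen (y : K) (hgen : IntermediateField.adjoin L {y} = ⊤) (c : L)
    (hc : c ≠ 0) : IntermediateField.adjoin L {y * algebraMap L K c} = ⊤ := by
  rw [eq_top_iff, ← hgen, IntermediateField.adjoin_simple_le_iff]
  have h1 : y * algebraMap L K c ∈ IntermediateField.adjoin L {y * algebraMap L K c} :=
    IntermediateField.mem_adjoin_simple_self L _
  have h2 : y = y * algebraMap L K c * algebraMap L K c⁻¹ := by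
    rw [mul_assoc, ← map_mul, mul_inv_cancel₀ hc, map_one, mul_one]
  have h3 := mul_mem h1 (IntermediateField.algebraMap_mem
    (IntermediateField.adjoin L {y * algebraMap L K c}) c⁻¹)
  rwa [← h2] at h3

/-- a polynomial of small degree does not vanish at the generator -/
private theorem norm_small (G : (𝓞 k)[X][X]) (z : 𝓞 K) (hfr : finrank L K = G.natDegree)
    (hgen : IntermediateField.adjoin L {(z : K)} = ⊤) (P : (𝓞 L)[X])
    (hP : P.degree < G.natDegree) (h0 : aeval z P = 0) : P = 0 := by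
  by_contra hne
  have hinj : Function.Injective (algebraMap (𝓞 L) L) := RingOfIntegers.coe_injective
  have h1 : P.map (algebraMap (𝓞 L) L) ≠ 0 := (Polynomial.map_ne_zero_iff hinj).2 hne
  have h2 : aeval (z : K) (P.map (algebraMap (𝓞 L) L)) = 0 := by
    rw [aeval_map_algebraMap]
    have h3 := congrArg (algebraMap (𝓞 K) K) h0
    rw [map_zero] at h3
    rw [← h3]
    exact aeval_algebraMap_apply K z P
  have h4 := minpoly.degree_le_of_ne_zero L (z : K) h1 h2
  have hint : IsIntegral L (z : K) := IsIntegral.of_finite L _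
  have h5 := IntermediateField.adjoin.finrank hint
  rw [hgen, IntermediateField.finrank_top', hfr] at h5
  rw [degree_eq_natDegree (minpoly.ne_zero hint), ← h5, degree_map_eq_of_injective hinj] at h4
  exact absurd hP (not_lt.2 h4)

private theorem norm_factor (G : (𝓞 k)[X][X]) (hG : G.Monic)
    (p : Pt k G) (x : L) (y : K) (hy : ev x y G = 0) (hfr : finrank L K = G.natDegree)
    (hgen : IntermediateField.adjoin L {y} = ⊤) (q : Ideal (𝓞 L))
    {κ κ' : Type} [Field κ] [Field κ'] (r : 𝓞 L →+* κ) (hr : RingHom.ker r = q) (ξ : κ)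
    (j t : 𝓞 L) (hj : r j ≠ 0) (ht : (t : L) = (j : L) * x) (hrt : r t = r j * ξ)
    (N₁ : ℕ) (hN₁ : ∀ l ≤ G.natDegree, (G.coeff l).natDegree + N₁ * l ≤ N₁ * G.natDegree)
    (yh : 𝓞 K) (hyh : (yh : K) = y * algebraMap L K (j : L) ^ N₁)
    (hb0 : norm_R (k := k) r ξ p.b = 0) (hd₁ : r (algebraMap (𝓞 k) (𝓞 L) p.d₁) ≠ 0)
    (o : κ →+* κ') (ρ : κ') (hρ : eval₂ o ρ (p.h.map (norm_R r ξ)) = 0)
    (P : (𝓞 L)[X]) (hP : aeval yh P ∈ rr q x y p.h) :
    eval₂ (o.comp r) (ρ * (o (r j)) ^ N₁) P = 0 := by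
  set φ : (𝓞 L)[X] →+* κ' := eval₂RingHom (o.comp r) (ρ * (o (r j)) ^ N₁) with hφ
  change φ P = 0
  have hoj : o (r j) ≠ 0 := (map_ne_zero o).2 hj
  have hjL : (j : L) ≠ 0 := by
    intro h
    apply hj
    have : j = 0 := RingOfIntegers.ext h
    rw [this, map_zero]
  -- the value of `G`
  have hGρ : eval₂ o ρ (G.map (norm_R r ξ)) = 0 := by
    have h1 := congrArg (fun F : (𝓞 k)[X][X] => eval₂ o ρ (F.map (norm_R r ξ))) p.h1
    simp only [Polynomial.map_mul, Polynomial.map_add, map_C, eval₂_mul, eval₂_C, hρ,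
      hb0, map_zero, zero_mul, add_zero] at h1
    have h2 : norm_R (k := k) r ξ (C p.d₁) = r (algebraMap (𝓞 k) (𝓞 L) p.d₁) := by
      unfold norm_R
      rw [coe_eval₂RingHom, eval₂_C]
      rfl
    rw [h2] at h1
    rcases mul_eq_zero.1 h1 with h | h
    · exact absurd h ((map_ne_zero o).2 hd₁)
    · exact h
  -- the minimal polynomial
  obtain ⟨hg1, hg2⟩ := norm_pl_monic (k := k) j t N₁ G hG
  set g := norm_pl j t N₁ G (N₁ * G.natDegree) with hg
  have hgy : aeval yh g = 0 := by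
    apply RingOfIntegers.ext
    rw [norm_aeval x y j t ht N₁ yh hyh G _ hN₁, hy, zero_mul]
    rfl
  have hgφ : φ g = 0 := by
    change eval₂ (o.comp r) (ρ * (o (r j)) ^ N₁) g = 0
    rw [norm_phi r ξ o ρ j t hrt N₁ G _ hN₁, hGρ, zero_mul]
  have hgenh : IntermediateField.adjoin L {(yh : K)} = ⊤ := by
    rw [hyh, ← map_pow]
    exact norm_gen y hgen _ (pow_ne_zero _ hjL)
  have hker : ∀ P : (𝓞 L)[X], aeval yh P = 0 → φ P = 0 := by
    intro P hP
    have h1 := modByMonic_add_div P g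
    have h2 : aeval yh (P %ₘ g) = 0 := by
      have h3 := congrArg (aeval yh) h1
      rw [map_add, map_mul, hgy, zero_mul, add_zero] at h3
      rw [h3, hP]
    have h4 : P %ₘ g = 0 := by
      refine norm_small G yh hfr hgenh _ ?_ h2
      have h5 := degree_modByMonic_lt P hg1
      rwa [degree_eq_natDegree hg1.ne_zero, hg2] at h5
    rw [h4, zero_add] at h1
    rw [← h1, map_mul, hgφ, zero_mul]
  -- a prime ideal above the kernel
  let alg : Algebra (𝓞 L)[X] (𝓞 K) := (aeval yh : (𝓞 L)[X] →ₐ[𝓞 L] 𝓞 K).toRingHom.toAlgebra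
  have halg : ∀ P : (𝓞 L)[X], algebraMap (𝓞 L)[X] (𝓞 K) P = aeval yh P := fun P => rfl
  have : IsScalarTower (𝓞 L) (𝓞 L)[X] (𝓞 K) := IsScalarTower.of_algebraMap_eq (fun c => by
    rw [halg]
    change _ = aeval yh (C c)
    rw [aeval_C])
  have hInt : Algebra.IsIntegral (𝓞 L)[X] (𝓞 K) :=
    ⟨fun z => (Algebra.IsIntegral.isIntegral (R := 𝓞 L) z).tower_top⟩
  have : (RingHom.ker φ).IsPrime := RingHom.ker_isPrime φ
  obtain ⟨Q, -, hQp, hQ⟩ := Ideal.exists_ideal_over_prime_of_isIntegral (R := (𝓞 L)[X])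
    (S := 𝓞 K) (RingHom.ker φ) ⊥ (by
      intro P hP
      rw [Ideal.mem_comap, Ideal.mem_bot] at hP
      exact hker P hP)
  have hQ' : ∀ P : (𝓞 L)[X], aeval yh P ∈ Q ↔ φ P = 0 := by
    intro P
    rw [← RingHom.mem_ker, ← hQ, Ideal.mem_comap, halg]
  have hle : rr q x y p.h ≤ Q := by
    unfold rr
    rw [hQp.radical_le_iff, sup_le_iff]
    constructor
    · rw [Ideal.map_le_iff_le_comap]
      intro c hc
      rw [Ideal.mem_comap, ← aeval_C, hQ']
      change eval₂ (o.comp r) _ (C c) = 0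
      rw [eval₂_C, RingHom.comp_apply]
      rw [← hr, RingHom.mem_ker] at hc
      rw [hc, map_zero]
    · rw [Ideal.span_le]
      rintro w ⟨j₁, hj₁, N, hw⟩
      -- the multiple of `w`
      set M : ℕ := ∑ l ∈ Finset.range (p.h.natDegree + 1), ((p.h.coeff l).natDegree + N₁ * l)
        with hM
      have hM' : ∀ l ≤ p.h.natDegree, (p.h.coeff l).natDegree + N₁ * l ≤ M := by
        intro l hl
        exact Finset.single_le_sum (f := fun l => (p.h.coeff l).natDegree + N₁ * l)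
          (fun _ _ => Nat.zero_le _) (Finset.mem_range.2 (by omega))
      have h1 : w * algebraMap (𝓞 L) (𝓞 K) (j ^ M) =
          aeval yh (norm_pl j t N₁ p.h M) * algebraMap (𝓞 L) (𝓞 K) (j₁ ^ N) := by
        apply RingOfIntegers.ext
        have e1 : ∀ a b : 𝓞 K, ((a * b : 𝓞 K) : K) = (a : K) * (b : K) := fun a b => rfl
        have e2 : ∀ (c : 𝓞 L) (m : ℕ), ((algebraMap (𝓞 L) (𝓞 K) (c ^ m) : 𝓞 K) : K) =
            algebraMap L K (c : L) ^ m := by
          intro c m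
          rw [← map_pow]
          rfl
        rw [e1, e1, e2, e2, norm_aeval x y j t ht N₁ yh hyh p.h M hM', hw]
        ring
      have h2 : aeval yh (norm_pl j t N₁ p.h M) ∈ Q := by
        rw [hQ']
        change eval₂ (o.comp r) (ρ * (o (r j)) ^ N₁) _ = 0
        rw [norm_phi r ξ o ρ j t hrt N₁ p.h M hM', hρ, zero_mul]
      have h3 : w * algebraMap (𝓞 L) (𝓞 K) (j ^ M) ∈ Q := by
        rw [h1]
        exact Ideal.mul_mem_right _ _ h2
      rcases hQp.mem_or_mem h3 with h | h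
      · exact h
      · exfalso
        rw [← aeval_C (R := 𝓞 L) (x := yh), hQ'] at h
        change eval₂ (o.comp r) _ (C (j ^ M)) = 0 at h
        rw [eval₂_C, RingHom.comp_apply, map_pow, map_pow] at h
        exact pow_ne_zero M hoj h
  exact (hQ' P).1 (hle hP)


private theorem norm_coeffs (G : (𝓞 k)[X][X]) (hG : G.Monic)
    (p : Pt k G) (x : L) (y : K) (hy : ev x y G = 0) (hfr : finrank L K = G.natDegree)
    (hgen : IntermediateField.adjoin L {y} = ⊤) (q : Ideal (𝓞 L))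
    {κ : Type} [Field κ] (r : 𝓞 L →+* κ) (hr : RingHom.ker r = q) (ξ : κ)
    (j t : 𝓞 L) (hj : r j ≠ 0) (ht : (t : L) = (j : L) * x) (hrt : r t = r j * ξ)
    (N₁ : ℕ) (hN₁ : ∀ l ≤ G.natDegree, (G.coeff l).natDegree + N₁ * l ≤ N₁ * G.natDegree)
    (yh : 𝓞 K) (hyh : (yh : K) = y * algebraMap L K (j : L) ^ N₁)
    (hb0 : norm_R (k := k) r ξ p.b = 0) (hd₁ : r (algebraMap (𝓞 k) (𝓞 L) p.d₁) ≠ 0)
    (hd₃ : r (algebraMap (𝓞 k) (𝓞 L) p.d₃) ≠ 0) (hle : r (algebraMap (𝓞 k) (𝓞 L) p.lead) ≠ 0)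
    (P : (𝓞 L)[X]) (hPd : P.degree < p.f) (hP : aeval yh P ∈ rr q x y p.h) (l : ℕ) :
    r (P.coeff l) = 0 := by
  set h' : κ[X] := p.h.map (norm_R r ξ) with hh'
  have hRC : ∀ c : 𝓞 k, norm_R (k := k) r ξ (C c) = r (algebraMap (𝓞 k) (𝓞 L) c) := by
    intro c
    unfold norm_R
    rw [coe_eval₂RingHom, eval₂_C]
    rfl
  -- the degree of `h'`
  have hlc : h'.coeff p.f = r (algebraMap (𝓞 k) (𝓞 L) p.lead) := by
    rw [hh', coeff_map, ← p.hf]
    have h1 : p.h.coeff p.h.natDegree = C p.lead := p.hh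
    rw [h1, hRC]
  have hdeg : h'.degree = p.f := by
    refine le_antisymm ?_ (le_degree_of_ne_zero (by rw [hlc]; exact hle))
    refine (degree_map_le).trans ?_
    rw [← p.hf]
    exact degree_le_natDegree
  -- `h'` is squarefree
  have hsq : Squarefree h' := by
    apply Separable.squarefree
    have h1 := congrArg (Polynomial.map (norm_R (k := k) r ξ)) p.h4
    rw [Polynomial.map_add, Polynomial.map_add, Polynomial.map_mul, Polynomial.map_mul,
      Polynomial.map_mul, map_C, map_C, hb0, hRC, C_0, mul_zero, zero_add,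
      ← derivative_map] at h1
    refine ⟨C (r (algebraMap (𝓞 k) (𝓞 L) p.d₃))⁻¹ * p.β'.map (norm_R r ξ),
      C (r (algebraMap (𝓞 k) (𝓞 L) p.d₃))⁻¹ * p.γ'.map (norm_R r ξ), ?_⟩
    have h2 : C (r (algebraMap (𝓞 k) (𝓞 L) p.d₃))⁻¹ * C (r (algebraMap (𝓞 k) (𝓞 L) p.d₃)) =
        (1 : κ[X]) := by
      rw [← C_mul, inv_mul_cancel₀ hd₃, C_1]
    rw [← h2, ← h1]
    ring
  -- the divisibility
  set T : κ[X] := (P.map r).comp (C ((r j) ^ N₁) * X) with hT
  have hdvd : h' ∣ T := by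
    refine norm_sqf h' T hsq fun π hπ hπh => ?_
    have : Fact (Irreducible π) := ⟨hπ⟩
    have hρ : eval₂ (AdjoinRoot.of π) (AdjoinRoot.root π) (p.h.map (norm_R r ξ)) = 0 := by
      rw [← hh']
      obtain ⟨c, hc⟩ := hπh
      rw [hc, eval₂_mul, AdjoinRoot.eval₂_root, zero_mul]
    have h1 := norm_factor G hG p x y hy hfr hgen q r hr ξ j t hj ht hrt N₁ hN₁ yh hyh hb0 hd₁
      (AdjoinRoot.of π) (AdjoinRoot.root π) hρ P hP
    rw [← AdjoinRoot.mk_eq_zero, ← AdjoinRoot.aeval_eq, aeval_def, AdjoinRoot.algebraMap_eq, hT,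
      eval₂_comp, eval₂_mul, eval₂_C, eval₂_X, eval₂_map, map_pow, mul_comm]
    exact h1
  have hT0 : T = 0 := by
    by_contra hne
    have h1 : T.degree < p.f := by
      rw [degree_lt_iff_coeff_zero]
      intro m hm
      rw [hT, comp_C_mul_X_coeff, coeff_map, coeff_eq_zero_of_degree_lt, map_zero, zero_mul]
      exact lt_of_lt_of_le hPd (by exact_mod_cast hm)
    have h2 := degree_le_of_dvd hdvd hne
    rw [hdeg] at h2
    exact absurd h1 (not_lt.2 h2)
  have h1 : T.coeff l = 0 := by rw [hT0, coeff_zero]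
  rw [hT, comp_C_mul_X_coeff, coeff_map] at h1
  rcases mul_eq_zero.1 h1 with h | h
  · exact h
  · exact absurd h (pow_ne_zero _ (pow_ne_zero _ hj))

end norm_core

theorem norm_le_rr {k L K : Type} [Field k] [NumberField k] [Field L] [NumberField L]
    [Algebra k L] [Field K] [NumberField K] [Algebra L K] (G : (𝓞 k)[X][X]) (hG : G.Monic)
    (p : Pt k G) (x : L) (y : K) (hy : ev x y G = 0) (hfr : finrank L K = G.natDegree)
    (hgen : IntermediateField.adjoin L {y} = ⊤) (q : Ideal (𝓞 L)) (hq : q.IsMaximal)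
    (hbad : algebraMap (𝓞 k) (𝓞 L) p.bad ∉ q) (hz1 : SS.zf p.b x ≤ q) :
    Ideal.absNorm q ^ p.f ≤ Ideal.absNorm (rr q x y p.h) := by
  classical
  have hqp : q.IsPrime := hq.isPrime
  have hdvd : ∀ c : 𝓞 k, c ∣ p.bad → algebraMap (𝓞 k) (𝓞 L) c ∉ q := by
    rintro c ⟨c', hc'⟩ hc
    exact hbad (by rw [hc', map_mul]; exact Ideal.mul_mem_right _ _ hc)
  have hbd1 : p.d₁ ∣ p.bad :=
    (((dvd_mul_right p.d₁ p.d₂).mul_right p.d₃).mul_right _).mul_right _
  have hbd3 : p.d₃ ∣ p.bad :=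
    ((dvd_mul_left p.d₃ (p.d₁ * p.d₂)).mul_right _).mul_right _
  have hbdb : p.b.leadingCoeff ∣ p.bad :=
    (dvd_mul_left p.b.leadingCoeff (p.d₁ * p.d₂ * p.d₃)).mul_right _
  have hbdl : p.lead ∣ p.bad := dvd_mul_left _ _
  -- the denominator
  obtain ⟨j, hjd, hjq⟩ : ∃ j ∈ RefW.denIdealOf x, j ∉ q := by
    by_contra h
    push Not at h
    exact hdvd _ hbdb (SS.lead_mem p.b x q h hz1)
  obtain ⟨t, ht⟩ := id hjd
  -- the residue field
  let _ : Field (𝓞 L ⧸ q) := Ideal.Quotient.field q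
  set r : 𝓞 L →+* 𝓞 L ⧸ q := Ideal.Quotient.mk q with hrdef
  have hr0 : ∀ c : 𝓞 L, r c = 0 ↔ c ∈ q := fun c => Ideal.Quotient.eq_zero_iff_mem
  have hr : RingHom.ker r = q := by
    ext c
    rw [RingHom.mem_ker, hr0]
  have hj : r j ≠ 0 := fun h => hjq ((hr0 j).1 h)
  set ξ : 𝓞 L ⧸ q := r t / r j with hξ
  have hrt : r t = r j * ξ := by
    rw [hξ]
    field_simp
  have hb0 : norm_R (k := k) r ξ p.b = 0 := by
    have h1 : norm_hm j t p.b p.b.natDegree ∈ q := by
      apply hz1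
      refine ⟨j ^ p.b.natDegree, Ideal.pow_mem_pow hjd _, ?_⟩
      rw [norm_hE x j t ht p.b _ le_rfl, aeval_def, eval₂_map]
      rfl
    rw [← hr0, norm_hm_map r ξ j t hrt p.b _ le_rfl] at h1
    rcases mul_eq_zero.1 h1 with h | h
    · exact h
    · exact absurd h (pow_ne_zero _ hj)
  -- the multiple of `y`
  set N₁ : ℕ := ∑ l ∈ Finset.range (G.natDegree + 1), (G.coeff l).natDegree with hN₁
  have hN₁' : ∀ l ≤ G.natDegree, (G.coeff l).natDegree + N₁ * l ≤ N₁ * G.natDegree := by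
    intro l hl
    rcases Nat.lt_or_ge l G.natDegree with h | h
    · have h1 : (G.coeff l).natDegree ≤ N₁ :=
        Finset.single_le_sum (f := fun l => (G.coeff l).natDegree)
          (fun _ _ => Nat.zero_le _) (Finset.mem_range.2 (by omega))
      calc (G.coeff l).natDegree + N₁ * l ≤ N₁ + N₁ * l := by omega
        _ = N₁ * (l + 1) := by ring
        _ ≤ N₁ * G.natDegree := Nat.mul_le_mul_left _ h
    · have h1 : l = G.natDegree := by omega
      have h2 : G.coeff l = 1 := by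
        rw [h1]
        exact hG
      rw [h2, h1]
      simp
  obtain ⟨hg1, -⟩ := norm_pl_monic (k := k) j t N₁ G hG
  have hint : IsIntegral (𝓞 L) (y * algebraMap L K (j : L) ^ N₁) := by
    refine ⟨_, hg1, ?_⟩
    have h1 := norm_pl_map ((algebraMap L K).comp (algebraMap (𝓞 L) L)) (norm_E (K := K) x) j t
      (fun a M ha => norm_hEK x j t ht a M ha) y N₁ _ G hN₁'
    rw [← norm_ev, hy, zero_mul] at h1
    exact h1
  have hintZ : IsIntegral ℤ (y * algebraMap L K (j : L) ^ N₁) := isIntegral_trans _ hint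
  set yh : 𝓞 K := ⟨_, hintZ⟩ with hyhdef
  have hyh : (yh : K) = y * algebraMap L K (j : L) ^ N₁ := rfl
  have key := norm_coeffs G hG p x y hy hfr hgen q r hr ξ j t hj ht hrt N₁ hN₁' yh hyh hb0
    (fun h => hdvd _ hbd1 ((hr0 _).1 h)) (fun h => hdvd _ hbd3 ((hr0 _).1 h))
    (fun h => hdvd _ hbdl ((hr0 _).1 h))
  -- the map
  have hrr : rr q x y p.h ≠ ⊥ := by
    have hq0 : q ≠ ⊥ := Ideal.IsMaximal.ne_bot_of_isIntegral_int q
    obtain ⟨c, hc, hc0⟩ := Submodule.exists_mem_ne_zero_of_ne_bot hq0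
    intro h
    have h1 : algebraMap (𝓞 L) (𝓞 K) c ∈ rr q x y p.h := by
      unfold rr
      exact Ideal.le_radical (Ideal.mem_sup_left (Ideal.mem_map_of_mem _ hc))
    rw [h, Ideal.mem_bot] at h1
    exact hc0 ((map_eq_zero_iff _ (FaithfulSMul.algebraMap_injective (𝓞 L) (𝓞 K))).1 h1)
  have hfin : Finite (𝓞 K ⧸ rr q x y p.h) := Ideal.finiteQuotientOfFreeOfNeBot _ hrr
  let lift : (Fin p.f → 𝓞 L ⧸ q) → (𝓞 L)[X] := fun v =>
    ∑ l : Fin p.f, C (Quotient.out (v l)) * X ^ (l : ℕ)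
  have hlift : ∀ v, (lift v).degree < p.f := by
    intro v
    rw [degree_lt_iff_coeff_zero]
    intro m hm
    change (∑ l : Fin p.f, C (Quotient.out (v l)) * X ^ (l : ℕ)).coeff m = 0
    rw [finsetSum_coeff]
    refine Finset.sum_eq_zero fun l _ => ?_
    rw [coeff_C_mul, coeff_X_pow, if_neg (by have := l.2; omega), mul_zero]
  have hliftc : ∀ v (l : Fin p.f), (lift v).coeff l = Quotient.out (v l) := by
    intro v l
    change (∑ l : Fin p.f, C (Quotient.out (v l)) * X ^ (l : ℕ)).coeff (l : ℕ) = _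
    rw [finsetSum_coeff, Finset.sum_eq_single l]
    · rw [coeff_C_mul, coeff_X_pow, if_pos rfl, mul_one]
    · intro m _ hm
      rw [coeff_C_mul, coeff_X_pow, if_neg (fun h => hm (Fin.ext h.symm)), mul_zero]
    · intro h
      exact absurd (Finset.mem_univ _) h
  have hinj : Function.Injective (fun v : Fin p.f → 𝓞 L ⧸ q =>
      Ideal.Quotient.mk (rr q x y p.h) (aeval yh (lift v))) := by
    intro v v' hv
    have h1 : aeval yh (lift v - lift v') ∈ rr q x y p.h := by
      rw [map_sub]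
      exact Ideal.Quotient.eq.1 hv
    funext l
    have h2 := key (lift v - lift v') (lt_of_le_of_lt (degree_sub_le _ _)
      (max_lt (hlift v) (hlift v'))) h1 l
    rw [coeff_sub, hliftc, hliftc, map_sub, sub_eq_zero] at h2
    have h3 : ∀ u : 𝓞 L ⧸ q, r (Quotient.out u) = u := fun u => Quotient.out_eq u
    rw [h3, h3] at h2
    exact h2
  have hcard := Nat.card_le_card_of_injective _ hinj
  rw [Nat.card_fun, Nat.card_eq_fintype_card (α := Fin p.f), Fintype.card_fin] at hcard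
  rw [Ideal.absNorm_apply, Ideal.absNorm_apply, Submodule.cardQuot_apply,
    Submodule.cardQuot_apply]
  exact hcard

end Pool.Agent.RPT
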