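import Pool.Agent.RPT.Ram
import Pool.Agent.RPT.Norm
import Pool.Agent.RPT.Cop

/-!
# The discriminant of the field of a point, from the ramified points

HINTS (compare `SS.disc_ge_aux` in SS/Disc.lean and `OnePt/Ram.lean`). Let `Δ = ∏ i, (p i).bad *
∏ i ≠ j, d i j` where `A * C b_i + B * h_i + A' * C b_j + B' * h_j = C (C (d i j))`, `d i j ≠ 0`
(hypothesis `hco`), `Δ ≠ 0` in `𝓞 k`. For every `i` let `P i` be the finite set of the prime
  divisors
`q` of `c i` in `𝓞 L` with `Δ ∉ q`; `c i` is squarefree, and its prime divisors which contain `Δ`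
  have
a product which divides `span {Δ}`, so `absNorm (c i) ≤ |N_{L/ℚ} Δ| * ∏_{q ∈ P i} absNorm q` and
`|N_{L/ℚ} Δ| = |N_{k/ℚ} Δ| ^ [L : k] ≤ |N_{k/ℚ} Δ| ^ m`. For `q ∈ P i`: `zf b_i x ≤ q`,
`¬ zf b_i x ≤ q ^ 2` (`c i` is a simple divisor), so by `rr_pow_dvd` and
`pow_sub_one_dvd_differentIdeal (𝓞 L) (rr ..) e` (`q` maximal, `q ≠ ⊥`) `(rr q x y h_i) ^ (e_i -
  1)`
divides the different `differentIdeal (𝓞 L) (𝓞 K)`. The ideals `rr q x y h_i`, `i`, `q ∈ P i`, are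
pairwise coprime: for different `q` they contain `q.map`, `q'.map`, for the same `q` by
  `rr_coprime`.
So the product divides the different, and by `norm_le_rr`
`∏_i ∏_{q ∈ P i} absNorm q ^ (f_i (e_i - 1)) ≤ absNorm (different)`. Finally
`natAbs_discr_eq_absNorm_differentIdeal_mul_natAbs_discr_pow L (𝓞 L) K (𝓞 K)`.
-/

set_option autoImplicit false

open Polynomial NumberField Module

namespace Pool.Agent.RPT

private theorem disc_ideal_eq {R : Type} [CommRing R] [IsDedekindDomain R] [DecidableEq (Ideal R)]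
    (c : Ideal R) (hc0 : c ≠ ⊥) (hc : Squarefree c) :
    c = ∏ q ∈ (UniqueFactorizationMonoid.normalizedFactors c).toFinset, q := by
  classical
  have hnd := (UniqueFactorizationMonoid.squarefree_iff_nodup_normalizedFactors hc0).1 hc
  have h1 := Ideal.prod_normalizedFactors_eq_self hc0
  conv_lhs => rw [← h1]
  rw [Finset.prod, Multiset.toFinset_val, Multiset.dedup_eq_self.2 hnd, Multiset.map_id']

/-- the norm of a squarefree ideal without the bad prime divisors -/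
private theorem disc_norm_le {R : Type} [CommRing R] [IsDedekindDomain R] [Free ℤ R]
    [Module.Finite ℤ R] [DecidableEq (Ideal R)] (c : Ideal R) (hc0 : c ≠ ⊥) (hc : Squarefree c)
    (D : R) (hD : Ideal.absNorm (Ideal.span {D}) ≠ 0) (bad : Ideal R → Prop) [DecidablePred bad]
    (hbad : ∀ q, bad q → D ∈ q) :
    Ideal.absNorm c ≤ Ideal.absNorm (Ideal.span {D}) *
      ∏ q ∈ (UniqueFactorizationMonoid.normalizedFactors c).toFinset.filter (fun q => ¬ bad q),
        Ideal.absNorm q := by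
  have h1 := disc_ideal_eq c hc0 hc
  have hmax : ∀ q ∈ (UniqueFactorizationMonoid.normalizedFactors c).toFinset, q.IsMaximal := by
    intro q hq
    have hp := UniqueFactorizationMonoid.prime_of_normalized_factor q (Multiset.mem_toFinset.1 hq)
    exact (Ideal.isPrime_of_prime hp).isMaximal hp.ne_zero
  have h2 : Ideal.absNorm c = (∏ q ∈ (UniqueFactorizationMonoid.normalizedFactors c).toFinset.filter
      (fun q => bad q), Ideal.absNorm q) *
      ∏ q ∈ (UniqueFactorizationMonoid.normalizedFactors c).toFinset.filter (fun q => ¬ bad q),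
        Ideal.absNorm q := by
    rw [Finset.prod_filter_mul_prod_filter_not]
    conv_lhs => rw [h1]
    rw [map_prod]
  rw [h2]
  refine Nat.mul_le_mul_right _ ?_
  rw [← map_prod]
  refine Nat.le_of_dvd (Nat.pos_of_ne_zero hD) (map_dvd _ ?_)
  refine Finset.prod_dvd_of_coprime ?_ ?_
  · intro q hq q' hq' hne
    change IsCoprime q q'
    rw [Ideal.isCoprime_iff_sup_eq]
    exact (hmax q (Finset.mem_filter.1 hq).1).coprime_of_ne
      (hmax q' (Finset.mem_filter.1 hq').1) hne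
  · intro q hq
    rw [Ideal.dvd_iff_le, Ideal.span_singleton_le_iff_mem]
    exact hbad q (Finset.mem_filter.1 hq).2

theorem disc_ge (k : Type) [Field k] [NumberField k] (G : (𝓞 k)[X][X]) (hG : G.Monic) {s : ℕ}
    (p : Fin s → Pt k G)
    (hco : ∀ i j, i ≠ j → ∃ (A B A' B' : (𝓞 k)[X][X]) (d : 𝓞 k), d ≠ 0 ∧
      A * C (p i).b + B * (p i).h + A' * C (p j).b + B' * (p j).h = C (C d)) (m : ℕ) :
    ∃ C₀ : ℝ, 1 ≤ C₀ ∧ ∀ (L K : Type) [Field L] [NumberField L] [Algebra k L] [Field K]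
      [NumberField K] [Algebra L K] (x : L) (y : K), finrank k L ≤ m → ev x y G = 0 →
      finrank L K = G.natDegree → IntermediateField.adjoin L {y} = ⊤ →
      ∀ c : Fin s → Ideal (𝓞 L), (∀ i, SS.zf (p i).b x ≠ ⊥) →
      (∀ i, OnePt.Simple (SS.zf (p i).b x) (c i)) →
      (∏ i, (Ideal.absNorm (c i) : ℝ) ^ ((p i).f * ((p i).e - 1))) *
        |(discr L : ℝ)| ^ finrank L K ≤ C₀ * |(discr K : ℝ)| := by
  classical
  have hbez : ∀ i j : Fin s, ∃ (A B A' B' : (𝓞 k)[X][X]) (d : 𝓞 k), d ≠ 0 ∧ (i ≠ j →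
      A * C (p i).b + B * (p i).h + A' * C (p j).b + B' * (p j).h = C (C d)) := by
    intro i j
    by_cases hij : i = j
    · exact ⟨0, 0, 0, 0, 1, one_ne_zero, fun h => absurd hij h⟩
    · obtain ⟨A, B, A', B', d, hd, h⟩ := hco i j hij
      exact ⟨A, B, A', B', d, hd, fun _ => h⟩
  choose A B A' B' d hd hAB using hbez
  set b : 𝓞 k := (∏ i, (p i).bad) * ∏ i, ∏ j, d i j with hb
  have hb0 : b ≠ 0 := by
    refine mul_ne_zero (Finset.prod_ne_zero_iff.2 fun i _ => ?_) ?_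
    · unfold Pt.bad
      exact mul_ne_zero (mul_ne_zero (mul_ne_zero (mul_ne_zero (p i).hd₁ (p i).hd₂) (p i).hd₃)
        (leadingCoeff_ne_zero.2 (p i).hb)) (p i).hlead
    · exact Finset.prod_ne_zero_iff.2 fun i _ => Finset.prod_ne_zero_iff.2 fun j _ => hd i j
  have hbl : ∀ i, (p i).bad ∣ b := fun i =>
    (Finset.dvd_prod_of_mem (fun i => (p i).bad) (Finset.mem_univ i)).mul_right _
  have hbd : ∀ i j, d i j ∣ b := fun i j =>
    ((Finset.dvd_prod_of_mem (fun j => d i j) (Finset.mem_univ j)).trans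
      (Finset.dvd_prod_of_mem (fun i => ∏ j, d i j) (Finset.mem_univ i))).mul_left _
  set n₀ : ℕ := (Algebra.norm ℤ b).natAbs with hn₀
  have hn0 : n₀ ≠ 0 := Int.natAbs_ne_zero.2 (Algebra.norm_ne_zero_iff.2 hb0)
  have hn1 : 1 ≤ n₀ := Nat.one_le_iff_ne_zero.2 hn0
  refine ⟨((∏ i, (n₀ ^ m) ^ ((p i).f * ((p i).e - 1)) : ℕ) : ℝ), ?_, ?_⟩
  · have h1 : 1 ≤ ∏ i, (n₀ ^ m) ^ ((p i).f * ((p i).e - 1)) :=
      Finset.one_le_prod' fun i _ => Nat.one_le_pow _ _ (Nat.pow_pos hn1)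
    exact_mod_cast h1
  intro L K _ _ _ _ _ _ x y hm hy hfr hgen c hz hc
  set D : 𝓞 L := algebraMap (𝓞 k) (𝓞 L) b with hDdef
  have hDn : Ideal.absNorm (Ideal.span {D}) = n₀ ^ finrank k L := by
    have h1 : Ideal.span {D} = (Ideal.span {b}).map (algebraMap (𝓞 k) (𝓞 L)) := by
      rw [Ideal.map_span, Set.image_singleton]
    rw [h1, Ideal.absNorm_algebraMap, ← IsFractionRing.finrank_eq (𝓞 k) k (𝓞 L) L,
      Ideal.absNorm_span_singleton]
  have hDn0 : Ideal.absNorm (Ideal.span {D}) ≠ 0 := by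
    rw [hDn]
    exact pow_ne_zero _ hn0
  have hDm : Ideal.absNorm (Ideal.span {D}) ≤ n₀ ^ m := by
    rw [hDn]
    exact Nat.pow_le_pow_right hn1 hm
  have hc0 : ∀ i, c i ≠ ⊥ := by
    intro i h
    obtain ⟨-, w, hw, -⟩ := hc i
    rw [h, Ideal.bot_mul] at hw
    exact hz i hw
  set P : Fin s → Finset (Ideal (𝓞 L)) := fun i =>
    (UniqueFactorizationMonoid.normalizedFactors (c i)).toFinset.filter (fun q => ¬ D ∈ q) with hP
  set I : Finset (Σ _ : Fin s, Ideal (𝓞 L)) := Finset.univ.sigma P with hI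
  have hmemP : ∀ i, ∀ q ∈ P i, q.IsMaximal ∧ q ≠ ⊥ ∧ D ∉ q ∧ SS.zf (p i).b x ≤ q ∧
      ¬ SS.zf (p i).b x ≤ q ^ 2 := by
    intro i q hq
    rw [hP, Finset.mem_filter, Multiset.mem_toFinset] at hq
    have hp := UniqueFactorizationMonoid.prime_of_normalized_factor q hq.1
    have hqc : q ∣ c i := UniqueFactorizationMonoid.dvd_of_mem_normalizedFactors hq.1
    have hqm : q.IsMaximal := (Ideal.isPrime_of_prime hp).isMaximal hp.ne_zero
    obtain ⟨hsq, w, hw, hcw⟩ := hc i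
    refine ⟨hqm, hp.ne_zero, hq.2, ?_, ?_⟩
    · rw [← Ideal.dvd_iff_le, hw]
      exact hqc.mul_right _
    · rw [← Ideal.dvd_iff_le, hw]
      intro h
      have hqw : IsCoprime q w := hcw.of_isCoprime_of_dvd_left hqc
      have h1 : q ^ 2 ∣ c i := (hqw.pow_left).dvd_of_dvd_mul_right h
      rw [pow_two] at h1
      exact hp.not_isUnit (hsq q h1)
  have hdvd : ∀ i, ∀ q ∈ P i, ∀ t : 𝓞 k, t ∣ b → algebraMap (𝓞 k) (𝓞 L) t ∉ q := by
    rintro i q hq t ⟨t', ht'⟩ ht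
    apply (hmemP i q hq).2.2.1
    rw [hDdef, ht', map_mul]
    exact Ideal.mul_mem_right _ _ ht
  have hdiff : ∏ u ∈ I, rr u.2 x y (p u.1).h ^ ((p u.1).e - 1) ∣
      differentIdeal (𝓞 L) (𝓞 K) := by
    refine Finset.prod_dvd_of_coprime ?_ fun u hu => ?_
    · intro u hu v hv huv
      have hu' := hmemP u.1 u.2 (Finset.mem_sigma.1 hu).2
      have hv' := hmemP v.1 v.2 (Finset.mem_sigma.1 hv).2
      change IsCoprime (rr u.2 x y (p u.1).h ^ _) (rr v.2 x y (p v.1).h ^ _)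
      refine IsCoprime.pow ?_
      rw [Ideal.isCoprime_iff_sup_eq]
      by_cases h1 : u.2 = v.2
      · have h2 : u.1 ≠ v.1 := fun h2 => huv (Sigma.ext h2 (heq_of_eq h1))
        have h3 := hv'.2.2.2.1
        rw [← h1] at h3 ⊢
        exact rr_coprime G hG (p u.1) (p v.1) _ _ _ _ _ (hAB u.1 v.1 h2) x y hy u.2 hu'.1
          (hdvd u.1 u.2 (Finset.mem_sigma.1 hu).2 _ (hbl _))
          (hdvd u.1 u.2 (Finset.mem_sigma.1 hu).2 _ (hbd _ _)) hu'.2.2.2.1 h3
      · have h2 := hu'.1.coprime_of_ne hv'.1 h1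
        rw [eq_top_iff]
        calc (⊤ : Ideal (𝓞 K)) = (u.2 ⊔ v.2).map (algebraMap (𝓞 L) (𝓞 K)) := by
              rw [h2, Ideal.map_top]
          _ = u.2.map (algebraMap (𝓞 L) (𝓞 K)) ⊔ v.2.map (algebraMap (𝓞 L) (𝓞 K)) :=
              Ideal.map_sup _ _ _
          _ ≤ _ := sup_le_sup (le_sup_left.trans Ideal.le_radical)
              (le_sup_left.trans Ideal.le_radical)
    · have hu' := hmemP u.1 u.2 (Finset.mem_sigma.1 hu).2
      have hqm := hu'.1
      exact pow_sub_one_dvd_differentIdeal (𝓞 L) (rr u.2 x y (p u.1).h) (p u.1).e hu'.2.1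
        (rr_pow_dvd G hG (p u.1) x y hy u.2 hqm
          (hdvd u.1 u.2 (Finset.mem_sigma.1 hu).2 _ (hbl _)) hu'.2.2.2.1 hu'.2.2.2.2)
  have hdisc : (discr K).natAbs = Ideal.absNorm (differentIdeal (𝓞 L) (𝓞 K)) *
      (discr L).natAbs ^ finrank L K :=
    natAbs_discr_eq_absNorm_differentIdeal_mul_natAbs_discr_pow L (𝓞 L) K (𝓞 K)
  have hdiff0 : Ideal.absNorm (differentIdeal (𝓞 L) (𝓞 K)) ≠ 0 := by
    intro h
    rw [h, zero_mul] at hdisc
    exact discr_ne_zero K (Int.natAbs_eq_zero.1 hdisc)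
  have hnorm : ∏ u ∈ I, Ideal.absNorm u.2 ^ ((p u.1).f * ((p u.1).e - 1)) ≤
      Ideal.absNorm (differentIdeal (𝓞 L) (𝓞 K)) := by
    calc ∏ u ∈ I, Ideal.absNorm u.2 ^ ((p u.1).f * ((p u.1).e - 1))
        ≤ ∏ u ∈ I, Ideal.absNorm (rr u.2 x y (p u.1).h) ^ ((p u.1).e - 1) := by
          refine Finset.prod_le_prod' fun u hu => ?_
          have hu' := hmemP u.1 u.2 (Finset.mem_sigma.1 hu).2
          rw [pow_mul]
          refine Nat.pow_le_pow_left ?_ _
          exact norm_le_rr G hG (p u.1) x y hy hfr hgen u.2 hu'.1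
            (hdvd u.1 u.2 (Finset.mem_sigma.1 hu).2 _ (hbl _)) hu'.2.2.2.1
      _ = Ideal.absNorm (∏ u ∈ I, rr u.2 x y (p u.1).h ^ ((p u.1).e - 1)) := by
          rw [map_prod]
          exact Finset.prod_congr rfl fun u _ => (map_pow _ _ _).symm
      _ ≤ _ := Nat.le_of_dvd (Nat.pos_of_ne_zero hdiff0) (map_dvd _ hdiff)
  have hci : ∀ i, Ideal.absNorm (c i) ≤ n₀ ^ m * ∏ q ∈ P i, Ideal.absNorm q := by
    intro i
    exact (disc_norm_le (c i) (hc0 i) (hc i).1 D hDn0 (fun q => D ∈ q) (fun q h => h)).trans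
      (Nat.mul_le_mul_right _ hDm)
  have hfin : (∏ i, Ideal.absNorm (c i) ^ ((p i).f * ((p i).e - 1))) *
      (discr L).natAbs ^ finrank L K ≤
      (∏ i, (n₀ ^ m) ^ ((p i).f * ((p i).e - 1))) * (discr K).natAbs := by
    rw [hdisc, ← mul_assoc]
    refine Nat.mul_le_mul_right _ ?_
    calc ∏ i, Ideal.absNorm (c i) ^ ((p i).f * ((p i).e - 1))
        ≤ ∏ i, (n₀ ^ m * ∏ q ∈ P i, Ideal.absNorm q) ^ ((p i).f * ((p i).e - 1)) :=
          Finset.prod_le_prod' fun i _ => Nat.pow_le_pow_left (hci i) _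
      _ = (∏ i, (n₀ ^ m) ^ ((p i).f * ((p i).e - 1))) *
          ∏ i, (∏ q ∈ P i, Ideal.absNorm q ^ ((p i).f * ((p i).e - 1))) := by
          rw [← Finset.prod_mul_distrib]
          refine Finset.prod_congr rfl fun i _ => ?_
          rw [mul_pow, Finset.prod_pow]
      _ = (∏ i, (n₀ ^ m) ^ ((p i).f * ((p i).e - 1))) *
          ∏ u ∈ I, Ideal.absNorm u.2 ^ ((p u.1).f * ((p u.1).e - 1)) := by
          rw [hI, Finset.prod_sigma]
      _ ≤ _ := Nat.mul_le_mul_left _ hnorm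
  have h1 : |(discr L : ℝ)| = ((discr L).natAbs : ℝ) := by
    rw [Nat.cast_natAbs, Int.cast_abs]
  have h2 : |(discr K : ℝ)| = ((discr K).natAbs : ℝ) := by
    rw [Nat.cast_natAbs, Int.cast_abs]
  rw [h1, h2]
  exact_mod_cast hfin

end Pool.Agent.RPT
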