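import Pool.Agent.RPT.Defs

/-!
# Integrality of the values

HINTS. `y` is a root of the monic polynomial `G(x, Y)` over `L`. Let `N₁` be at least the degrees
(in `X`) of all coefficients of `G`. For `j ∈ denIdealOf x` put `s = j ^ N₁`; `s * y` is a root of
`(G(x, Y)).scaleRoots s` (`scaleRoots_aeval_eq_zero` or `scaleRoots_eval₂_eq_zero`), whose
coefficients `G_l(x) s ^ (n - l)` are integral over `ℤ` (`SS.pow_integral`, `SS.eval_integral` with
exponent `N₁ (n - l) ≥ deg G_l`), the leading one is `1`; so `s * y` is integral over `𝓞 L`, so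
over `ℤ`. Then for a monomial `c X ^ i Y ^ l` of `F` and `N ≥ i + N₁ l`: `c x ^ i y ^ l j ^ N =
c (x j) ^ i (s y) ^ l j ^ (N - i - N₁ l)` is integral; sum over the monomials, `N₀` the maximum of
the `i + N₁ l`. (`j = 0` is allowed; the integer `N₀` depends only on `G`, `F`.)
-/

set_option autoImplicit false

open Polynomial NumberField Module

namespace Pool.Agent.RPT

private theorem int_bound {k : Type} [Field k] [NumberField k] (F : (𝓞 k)[X][X]) :
    ∃ M : ℕ, ∀ l, (F.coeff l).natDegree ≤ M := by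
  refine ⟨F.support.sup fun l => (F.coeff l).natDegree, fun l => ?_⟩
  by_cases hl : l ∈ F.support
  · exact Finset.le_sup (f := fun l => (F.coeff l).natDegree) hl
  · rw [notMem_support_iff.1 hl]
    simp

private theorem int_base {L K : Type} [Field L] [NumberField L] [Field K] [NumberField K]
    [Algebra L K] {z : L} (hz : IsIntegral ℤ z) : IsIntegral ℤ (algebraMap L K z) :=
  hz.map (IsScalarTower.toAlgHom ℤ L K)

private theorem int_coe {L : Type} [Field L] [NumberField L] (j : 𝓞 L) : IsIntegral ℤ (j : L) :=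
  RingOfIntegers.isIntegral_coe j

private theorem int_coeff {k L : Type} [Field k] [NumberField k] [Field L] [NumberField L]
    [Algebra k L] (x : L) (j : 𝓞 L) (hj : j ∈ RefW.denIdealOf x) (g : (𝓞 k)[X]) (n : ℕ)
    (hn : g.natDegree ≤ n) :
    IsIntegral ℤ (eval₂ ((algebraMap k L).comp (algebraMap (𝓞 k) k)) x g * (j : L) ^ n) := by
  obtain ⟨t, ht⟩ := hj
  have hx : IsIntegral ℤ ((j : L) * x) := by
    rw [← ht]
    exact int_coe t
  rw [eval₂_eq_sum_range' _ (n := n + 1) (by omega), Finset.sum_mul]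
  refine IsIntegral.sum _ fun i hi => ?_
  rw [Finset.mem_range] at hi
  have e : (algebraMap k L).comp (algebraMap (𝓞 k) k) (g.coeff i) * x ^ i * (j : L) ^ n =
      algebraMap k L (g.coeff i : k) * ((j : L) * x) ^ i * (j : L) ^ (n - i) := by
    obtain ⟨m, rfl⟩ : ∃ m, n = i + m := ⟨n - i, by omega⟩
    rw [Nat.add_sub_cancel_left]
    change algebraMap k L (g.coeff i : k) * x ^ i * (j : L) ^ (i + m) = _
    ring
  rw [e]
  exact ((int_base (int_coe _)).mul (hx.pow i)).mul ((int_coe j).pow _)

theorem exists_int {k : Type} [Field k] [NumberField k] (G : (𝓞 k)[X][X]) (hG : G.Monic)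
    (F : (𝓞 k)[X][X]) : ∃ N₀ : ℕ, ∀ N : ℕ, N₀ ≤ N →
    ∀ (L K : Type) [Field L] [NumberField L] [Algebra k L] [Field K] [NumberField K]
      [Algebra L K] (x : L) (y : K), ev x y G = 0 → ∀ j ∈ RefW.denIdealOf x,
        ∃ w : 𝓞 K, (w : K) = ev x y F * algebraMap L K (j : L) ^ N := by
  obtain ⟨N₁, hN₁⟩ := int_bound G
  obtain ⟨M, hM⟩ := int_bound F
  refine ⟨M + N₁ * F.natDegree, ?_⟩
  intro N hN L K _ _ _ _ _ _ x y hy j hj
  set φ : (𝓞 k)[X] →+* L :=
    eval₂RingHom ((algebraMap k L).comp (algebraMap (𝓞 k) k)) x with hφ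
  set ψ : (𝓞 k)[X] →+* K := (algebraMap L K).comp φ with hψ
  set t : K := algebraMap L K (j : L) with ht
  have htint : IsIntegral ℤ t := int_base (int_coe j)
  have hev : ∀ H : (𝓞 k)[X][X], ev x y H = eval₂ ψ y H := fun H => rfl
  have hcoef : ∀ (g : (𝓞 k)[X]) (n : ℕ), g.natDegree ≤ n → IsIntegral ℤ (ψ g * t ^ n) := by
    intro g n hn
    have h1 := int_base (K := K) (int_coeff x j hj g n hn)
    rw [map_mul, map_pow] at h1
    exact h1
  -- `s y` is integral
  have hsy : IsIntegral ℤ (t ^ N₁ * y) := by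
    set p : K[X] := (G.map ψ).scaleRoots (t ^ N₁) with hp
    have hmon : (G.map ψ).Monic := hG.map ψ
    have hpm : p.Monic := by
      rw [hp, Polynomial.monic_scaleRoots_iff]
      exact hmon
    have hroot : eval₂ (RingHom.id K) y (G.map ψ) = 0 := by
      rw [eval₂_map, RingHom.id_comp, ← hev]
      exact hy
    have hev0 : eval (t ^ N₁ * y) p = 0 := by
      have := scaleRoots_eval₂_eq_zero (RingHom.id K) (s := t ^ N₁) hroot
      rwa [RingHom.id_apply] at this
    have hdeg : p.natDegree ≠ 0 := by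
      intro h0
      rw [Polynomial.eq_one_of_monic_natDegree_zero hpm h0, eval_one] at hev0
      exact one_ne_zero hev0
    refine IsIntegral.of_aeval_monic_of_isIntegral_coeff hpm hdeg ?_ ?_
    · rw [hev0]
      exact isIntegral_zero
    · intro i
      rw [hp, coeff_scaleRoots, coeff_map]
      have hnd : (G.map ψ).natDegree = G.natDegree := hG.natDegree_map ψ
      rcases lt_trichotomy i G.natDegree with h | h | h
      · rw [← pow_mul]
        refine hcoef _ _ ((hN₁ i).trans ?_)
        rw [hnd]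
        exact Nat.le_mul_of_pos_right _ (by omega)
      · rw [h, hnd, Nat.sub_self, pow_zero, mul_one, ← leadingCoeff, hG.leadingCoeff, map_one]
        exact isIntegral_one
      · rw [coeff_eq_zero_of_natDegree_lt h, map_zero, zero_mul]
        exact isIntegral_zero
  -- the sum
  have hmain : IsIntegral ℤ (ev x y F * t ^ N) := by
    rw [hev, eval₂_eq_sum_range, Finset.sum_mul]
    refine IsIntegral.sum _ fun l hl => ?_
    rw [Finset.mem_range] at hl
    have hl' : N₁ * l ≤ N₁ * F.natDegree := Nat.mul_le_mul_left _ (by omega)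
    obtain ⟨r, hr⟩ : ∃ r, N = M + N₁ * l + r := ⟨N - (M + N₁ * l), by omega⟩
    have e : ψ (F.coeff l) * y ^ l * t ^ N =
        (ψ (F.coeff l) * t ^ M) * (t ^ N₁ * y) ^ l * t ^ r := by
      rw [hr]
      ring
    rw [e]
    exact ((hcoef _ _ (hM l)).mul (hsy.pow l)).mul (htint.pow r)
  exact ⟨⟨_, hmain⟩, rfl⟩

end Pool.Agent.RPT
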