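import Pool.Agent.RPT.Disc
import Pool.Agent.RPT.Conv
import Pool.Agent.COV.Tower

/-!
# The field of a point of large degree, and the ramified points
-/

set_option autoImplicit false

open Polynomial NumberField IntermediateField Module

namespace Pool.Agent.RPT

/-- the ideal of the zeros is not zero -/
theorem zf_ne_bot {k : Type} [Field k] [NumberField k] {L : Type} [Field L] [NumberField L]
    [Algebra k L] (b : (𝓞 k)[X]) (x : L) (h : aeval x (b.map (algebraMap (𝓞 k) k)) ≠ 0) :
    SS.zf b x ≠ ⊥ := by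
  obtain ⟨j₀, hj₀, hj₀0⟩ := Submodule.exists_mem_ne_zero_of_ne_bot (RefW.denIdeal_norm_le x).1
  obtain ⟨w, hw⟩ := SS.eval_int b x _ le_rfl _ (Ideal.pow_mem_pow hj₀ _)
  intro hbot
  have hmem : w ∈ SS.zf b x := ⟨j₀ ^ b.natDegree, Ideal.pow_mem_pow hj₀ _, hw⟩
  rw [hbot, Ideal.mem_bot] at hmem
  rw [hmem] at hw
  have h1 : (j₀ : L) ≠ 0 := fun h => hj₀0 (RingOfIntegers.coe_eq_zero_iff.1 h)
  have h2 : aeval x (b.map (algebraMap (𝓞 k) k)) * ((j₀ ^ b.natDegree : 𝓞 L) : L) ≠ 0 := by
    refine mul_ne_zero h ?_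
    change (j₀ : L) ^ b.natDegree ≠ 0
    exact pow_ne_zero _ h1
  exact h2 (by rw [← hw]; rfl)

/-- The discriminant of the field of a point of maximal degree over its abscissa. -/
theorem point (k : Type) [Field k] [NumberField k] (G : k[X][X]) (hG : G.Monic) {s : ℕ}
    (p : Fin s → RamPt k G)
    (hco : ∀ i j, i ≠ j → Ideal.span {C (p i).b, (p i).h, C (p j).b, (p j).h} = ⊤) (m : ℕ)
    (hm : 1 ≤ m) :
    ∃ (b : Fin s → (𝓞 k)[X]) (C₁ : ℝ), 0 ≤ C₁ ∧
      (∀ i, ∃ γ : k, γ ≠ 0 ∧ (b i).map (algebraMap (𝓞 k) k) = C γ * (p i).b) ∧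
      ∀ P : AlgebraicClosure k × AlgebraicClosure k,
      (G.map (mapRingHom (algebraMap k (AlgebraicClosure k)))).evalEval P.1 P.2 = 0 →
      finrank k (IntermediateField.adjoin k {P.1}) = m →
      finrank k (IntermediateField.adjoin k {P.1, P.2}) = m * G.natDegree →
      ∀ c : Fin s → Ideal (𝓞 (IntermediateField.adjoin k {P.1})),
      (∀ i, aeval P.1 (p i).b ≠ 0) →
      (∀ i, OnePt.Simple (SS.zf (b i) (AdjoinSimple.gen k P.1)) (c i)) →
      (∑ i, (((p i).f * ((p i).e - 1) : ℕ) : ℝ) / G.natDegree *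
        Real.log (Ideal.absNorm (c i))) /
        finrank ℚ (IntermediateField.adjoin k {P.1}) + AA.logDiscr P.1 ≤ HD.logDiscr P + C₁ := by
  classical
  obtain ⟨β, G', p', hβ, hG', hdeg, hmap, hp', hco'⟩ := exists_conv k G hG p hco
  obtain ⟨C₀, hC₀, hdisc⟩ := disc_ge k G' hG' p' hco' m
  choose he hf hγ using hp'
  refine ⟨fun i => (p' i).b, Real.log C₀, Real.log_nonneg hC₀, hγ, ?_⟩
  intro P hP hP1 hP2
  set L := IntermediateField.adjoin k {P.1} with hL
  set ξ : L := AdjoinSimple.gen k P.1 with hξ
  intro c hbne hc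
  set K' := IntermediateField.adjoin L {P.2} with hK'
  have hint : IsIntegral L P.2 := Algebra.IsIntegral.isIntegral P.2
  have hfd : FiniteDimensional L K' := IntermediateField.adjoin.finiteDimensional hint
  have hnf : NumberField K' := NumberField.of_module_finite L K'
  have hK0 : 0 < finrank L K' := finrank_pos
  have hL0 : 0 < finrank ℚ L := finrank_pos
  have hβk : (β : k) ≠ 0 := fun h => hβ (RingOfIntegers.coe_eq_zero_iff.1 h)
  -- the degree
  have g3 : finrank k K' = finrank k L * finrank L K' := (finrank_mul_finrank k L K').symm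
  have g4 : finrank k (IntermediateField.adjoin k {P.1, P.2}) = finrank k L * finrank L K' := by
    rw [← SFD.restrict_pair, ← g3]
    rfl
  have hdegK : finrank L K' = G.natDegree := by
    rw [hP2, hP1] at g4
    exact (Nat.eq_of_mul_eq_mul_left (by omega) g4).symm
  -- the point of the model
  set η : K' := algebraMap L K' (algebraMap k L (β : k)) * AdjoinSimple.gen L P.2 with hη
  have hval : ev ξ η G' = 0 := by
    apply (algebraMap K' (AlgebraicClosure k)).injective
    rw [map_zero]
    set φ : k[X] →+* K' := (algebraMap L K').comp (aeval ξ : k[X] →ₐ[k] L).toRingHom with hφ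
    have h1 : ev ξ η G' = eval₂ φ η (G'.map (mapRingHom (algebraMap (𝓞 k) k))) := by
      unfold ev
      rw [coe_eval₂RingHom, eval₂_map]
      congr 1
      refine Polynomial.ringHom_ext' ?_ ?_
      · apply RingHom.ext
        intro a
        simp [hφ]
      · simp [hφ]
    have h2 : φ (C (β : k)) = algebraMap L K' (algebraMap k L (β : k)) := by
      simp [hφ]
    rw [h1, hmap, hη, ← h2, scaleRoots_eval₂_mul, map_mul]
    have h3 : algebraMap K' (AlgebraicClosure k) (eval₂ φ (AdjoinSimple.gen L P.2) G) = 0 := by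
      rw [← hP, COV.evalEval_eq, hom_eval₂, AdjoinSimple.algebraMap_gen]
      congr 1
      apply RingHom.ext
      intro f
      change algebraMap K' (AlgebraicClosure k) (algebraMap L K' (aeval ξ f)) = aeval P.1 f
      rw [← IsScalarTower.algebraMap_apply L K' (AlgebraicClosure k), ← aeval_algebraMap_apply]
      rfl
    rw [h3, mul_zero]
  -- it generates the field
  have hgen : IntermediateField.adjoin L {η} = ⊤ := by
    have hinj := IntermediateField.lift_injective (K := L) (L := AlgebraicClosure k) K'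
    apply hinj
    rw [IntermediateField.lift_adjoin_simple, IntermediateField.lift_top]
    have hηv : (η : AlgebraicClosure k) =
        algebraMap L (AlgebraicClosure k) (algebraMap k L (β : k)) * P.2 := rfl
    rw [hηv]
    change IntermediateField.adjoin L
      {algebraMap L (AlgebraicClosure k) (algebraMap k L (β : k)) * P.2} =
        IntermediateField.adjoin L {P.2}
    have hβL : algebraMap L (AlgebraicClosure k) (algebraMap k L (β : k)) ≠ 0 := by
      rw [_root_.map_ne_zero, _root_.map_ne_zero]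
      exact hβk
    apply le_antisymm
    · rw [IntermediateField.adjoin_simple_le_iff]
      exact mul_mem (IntermediateField.algebraMap_mem _ _)
        (IntermediateField.mem_adjoin_simple_self _ _)
    · rw [IntermediateField.adjoin_simple_le_iff]
      have h1 : algebraMap L (AlgebraicClosure k) (algebraMap k L (β : k)) * P.2 ∈
          IntermediateField.adjoin L
            {algebraMap L (AlgebraicClosure k) (algebraMap k L (β : k)) * P.2} :=
        IntermediateField.mem_adjoin_simple_self _ _
      have h2 : (algebraMap L (AlgebraicClosure k) (algebraMap k L (β : k)))⁻¹ ∈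
          IntermediateField.adjoin L
            {algebraMap L (AlgebraicClosure k) (algebraMap k L (β : k)) * P.2} :=
        inv_mem (IntermediateField.algebraMap_mem _ _)
      have h3 := mul_mem h2 h1
      rwa [← mul_assoc, inv_mul_cancel₀ hβL, one_mul] at h3
  -- the ideals of the zeros
  have hz : ∀ i, SS.zf (p' i).b ξ ≠ ⊥ := by
    intro i
    refine zf_ne_bot _ _ ?_
    obtain ⟨γ, hγ0, hγb⟩ := hγ i
    rw [hγb, map_mul, aeval_C]
    refine mul_ne_zero ((_root_.map_ne_zero _).2 hγ0) ?_
    intro h0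
    apply hbne i
    have h1 : aeval P.1 (p i).b = algebraMap L (AlgebraicClosure k) (aeval ξ (p i).b) := by
      rw [← aeval_algebraMap_apply]
      rfl
    rw [h1, h0, map_zero]
  have hmain := hdisc L K' ξ η hP1.le hval (by rw [hdegK, hdeg]) hgen c hz hc
  have hmul : (finrank ℚ K' : ℝ) = finrank ℚ L * finrank L K' := by
    have := finrank_mul_finrank ℚ L K'
    exact_mod_cast this.symm
  -- comparison with the field of the point
  have hle : SST.logDisc K' ≤ HD.logDiscr P := by
    have hmem : ∀ z : K', (z : AlgebraicClosure k) ∈ IntermediateField.adjoin k {P.1, P.2} := by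
      intro z
      rw [← SFD.restrict_pair]
      exact z.2
    let F : K' →+* IntermediateField.adjoin k {P.1, P.2} :=
      { toFun := fun z => ⟨z, hmem z⟩
        map_one' := rfl
        map_mul' := fun _ _ => rfl
        map_zero' := rfl
        map_add' := fun _ _ => rfl }
    let : Algebra K' (IntermediateField.adjoin k {P.1, P.2}) := F.toAlgebra
    exact HD.logDisc_le_of_algebra _ _
  have hl0 : (0 : ℝ) < finrank ℚ L := by exact_mod_cast hL0
  have hk0 : (0 : ℝ) < finrank L K' := by exact_mod_cast hK0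
  have hl1 : (1 : ℝ) ≤ finrank ℚ L := by exact_mod_cast hL0
  have hk1 : (1 : ℝ) ≤ finrank L K' := by exact_mod_cast hK0
  -- logarithms
  have hcpos : ∀ i, (0 : ℝ) < Ideal.absNorm (c i) := by
    intro i
    have h1 : c i ≠ ⊥ := (hc i).1.ne_zero
    have h2 : Ideal.absNorm (c i) ≠ 0 := fun h => h1 (Ideal.absNorm_eq_zero_iff.1 h)
    have h3 : 0 < Ideal.absNorm (c i) := Nat.pos_of_ne_zero h2
    exact_mod_cast h3
  have hLd : (0 : ℝ) < |(discr L : ℝ)| := by
    rw [abs_pos]
    exact_mod_cast NumberField.discr_ne_zero L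
  have hKd : (0 : ℝ) < |(discr K' : ℝ)| := by
    rw [abs_pos]
    exact_mod_cast NumberField.discr_ne_zero K'
  have hC0 : (0 : ℝ) < C₀ := by linarith
  have hlog := Real.log_le_log (mul_pos (Finset.prod_pos fun i _ => pow_pos (hcpos i) _)
    (pow_pos hLd _)) hmain
  rw [Real.log_mul (Finset.prod_pos fun i _ => pow_pos (hcpos i) _).ne' (pow_pos hLd _).ne',
    Real.log_mul hC0.ne' hKd.ne', Real.log_prod fun i _ => (pow_pos (hcpos i) _).ne',
    Real.log_pow] at hlog
  simp only [Real.log_pow, hf, he] at hlog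
  set n : ℝ := (finrank L K' : ℝ) with hn
  have hGn : (G.natDegree : ℝ) = n := by rw [hn, hdegK]
  set S : ℝ := ∑ i, (((p i).f * ((p i).e - 1) : ℕ) : ℝ) * Real.log (Ideal.absNorm (c i)) with hS
  have hSn : ∑ i, (((p i).f * ((p i).e - 1) : ℕ) : ℝ) / G.natDegree *
      Real.log (Ideal.absNorm (c i)) = S / n := by
    rw [hS, hGn, Finset.sum_div]
    refine Finset.sum_congr rfl fun i _ => ?_
    ring
  rw [hSn]
  have e5 : AA.logDiscr P.1 = Real.log |(discr L : ℝ)| / finrank ℚ L := rfl
  have e6 : SST.logDisc K' = Real.log |(discr K' : ℝ)| / (finrank ℚ L * finrank L K') := by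
    unfold SST.logDisc
    rw [hmul]
  have hlC : 0 ≤ Real.log C₀ := Real.log_nonneg hC₀
  have h4 : S / n / finrank ℚ L + Real.log |(discr L : ℝ)| / finrank ℚ L ≤
      SST.logDisc K' + Real.log C₀ := by
    rw [e6]
    have h5 : S / n / finrank ℚ L + Real.log |(discr L : ℝ)| / finrank ℚ L =
        (S + n * Real.log |(discr L : ℝ)|) / (finrank ℚ L * n) := by
      field_simp
    have h6 : Real.log |(discr K' : ℝ)| / (finrank ℚ L * n) + Real.log C₀ =
        (Real.log |(discr K' : ℝ)| + (finrank ℚ L * n) * Real.log C₀) / (finrank ℚ L * n) := by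
      field_simp
    rw [h5, ← hn, h6]
    refine div_le_div_of_nonneg_right ?_ (by positivity)
    have h7 : Real.log C₀ ≤ (finrank ℚ L * n) * Real.log C₀ := by
      have : (1 : ℝ) ≤ finrank ℚ L * n := one_le_mul_of_one_le_of_one_le hl1 hk1
      exact le_mul_of_one_le_left hlC this
    linarith
  rw [e5]
  linarith

end Pool.Agent.RPT
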