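import Pool.Agent.RPT.Defs

/-!
# Ramified points over the field `k`, and their integral models
-/

set_option autoImplicit false

open Polynomial NumberField Module

namespace Pool.Agent.RPT

/-- A ramified closed point `Q` of the affine curve `G(X, Y) = 0` over `k` (`G` monic in `Y`), for the
map given by `X`. Its image is the closed point of the line given by the irreducible polynomial `b`;
`Q` is the only point with `b = h = 0`, it has degree `f` over its image (`h` is monic in `Y` of degree
`f` and separable modulo `b`), and its ramification index is divisible by `e ≥ 2`: `μ ^ e` is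
`b` times a function `H` which does not vanish at `Q`. -/
structure RamPt (k : Type) [Field k] (G : k[X][X]) where
  b : k[X]
  e : ℕ
  f : ℕ
  h : k[X][X]
  μ : k[X][X]
  H : k[X][X]
  irr : Irreducible b
  he : 2 ≤ e
  hmon : h.Monic
  hf : h.natDegree = f
  hG : G ∈ Ideal.span {C b, h}
  hsep : Ideal.span {C b, h, derivative h} = ⊤
  hμ : G ∣ μ ^ e - C b * H
  hH : Ideal.span {C b, h, H} = ⊤

end Pool.Agent.RPT
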