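import Pool.Agent.RPT.Int

/-!
# The ramification at the prime ideals above a ramified point

HINTS. Choose `j ∈ denIdealOf x`, `j ∉ q` (if `denIdealOf x ≤ q` then `SS.lead_mem` puts the leading
coefficient of `b` into `q`), and `N` so large that the values at `(x, y)` of `b` (as `C b`), `h`, `μ`,
`H`, `α`, `β`, `γ` times `j ^ N` are integral (`exists_int`); write a hat for these elements of
`𝓞 K` (for `b` even `bh = b(x) j ^ N ∈ 𝓞 L` with `N ≥ deg b`). From `p.h2` and `G(x, y) = 0`: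
`μh ^ e = bh * Hh * j ^ (N (e - 2))`; from `p.h3`: `αh bh + βh hh + γh Hh = d₂ j ^ (2 N)`.
In `𝓞 L`: `bh ∈ q`, `bh ∉ q ^ 2` (`bh` = `w * j ^ (N - deg b)` with `w ∈ zf b x`; if
`bh ∈ q ^ 2` then all of `zf b x ≤ q ^ 2`: for `w' ∈ zf b x`, `w' j ^ N` is a multiple of `bh`...,
`SS.pow_cancel`, as in `SS.exists_above`), so `span {bh} = q * B`, `¬ q ∣ B`.
Let `Q` be a prime ideal of `𝓞 K` which contains `rr q x y p.h`. Then `Q ∩ 𝓞 L = q`, `hh ∈ Q`,
`j ∉ Q`, `d₂ ∉ Q`, so `Hh ∉ Q` (otherwise `d₂ j ^ (2 N) ∈ Q`). Counting the exponent of `Q` (number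
of times `Q` occurs in the `normalizedFactors`, additive for products) in
`span {μh} ^ e = q.map * B.map * span {Hh} * span {j} ^ ..` gives
`e * count(μh) = count(q.map) + 0`, and `count(q.map) ≥ 1`, so `count(q.map) ≥ e`
(or: `μh ∈ Q` since `μh ^ e ∈ Q`, so `Q ^ e ∣ span {μh ^ e} = q.map * (coprime to Q)`, so
`Q ^ e ∣ q.map` by `IsCoprime.dvd_of_dvd_mul_right`). Finally `rr` is a radical ideal containing
`q.map ≠ 0`, so it is the product of the distinct primes `Q` above it (or `⊤`), and the product of the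
pairwise coprime `Q ^ e` divides `q.map` (`Finset.prod_dvd_of_coprime`).
-/

set_option autoImplicit false

open Polynomial NumberField Module

namespace Pool.Agent.RPT

/-- the power of a radical ideal divides, if this is true for the prime ideals above it -/
private theorem ram_radical {A : Type} [CommRing A] [IsDedekindDomain A] (I X : Ideal A)
    (hI : I.IsRadical) (hI0 : I ≠ 0) (hX : X ≠ 0) (e : ℕ)
    (h : ∀ P : Ideal A, P.IsPrime → I ≤ P → P ^ e ∣ X) : I ^ e ∣ X := by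
  classical
  have hsq : Squarefree I := by
    refine IsRadical.squarefree hI0 ?_
    intro n Y hY
    rw [Ideal.dvd_iff_le] at hY ⊢
    intro y hy
    exact hI ⟨n, hY (Ideal.pow_mem_pow hy n)⟩
  have hnd := (UniqueFactorizationMonoid.squarefree_iff_nodup_normalizedFactors hI0).1 hsq
  rw [UniqueFactorizationMonoid.dvd_iff_normalizedFactors_le_normalizedFactors
    (pow_ne_zero _ hI0) hX, UniqueFactorizationMonoid.normalizedFactors_pow,
    Multiset.le_iff_count]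
  intro P
  rw [Multiset.count_nsmul]
  by_cases hP : P ∈ UniqueFactorizationMonoid.normalizedFactors I
  · rw [Multiset.count_eq_one_of_mem hnd hP, mul_one]
    have hPp : Prime P := UniqueFactorizationMonoid.prime_of_normalized_factor P hP
    have hPI : P ∣ I := UniqueFactorizationMonoid.dvd_of_mem_normalizedFactors hP
    have h1 := h P (Ideal.isPrime_of_prime hPp) (Ideal.dvd_iff_le.1 hPI)
    rw [UniqueFactorizationMonoid.dvd_iff_normalizedFactors_le_normalizedFactors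
      (pow_ne_zero _ hPp.ne_zero) hX, UniqueFactorizationMonoid.normalizedFactors_pow,
      UniqueFactorizationMonoid.normalizedFactors_irreducible hPp.irreducible,
      Multiset.le_iff_count] at h1
    have h2 := h1 P
    rw [Multiset.count_nsmul, normalize_eq, Multiset.count_singleton_self, mul_one] at h2
    exact h2
  · rw [Multiset.count_eq_zero_of_notMem hP, mul_zero]
    exact Nat.zero_le _

/-- a prime ideal which does not contain the other factor -/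
private theorem ram_coprime {A : Type} [CommRing A] (P J X : Ideal A) (hP : P.IsMaximal) (e : ℕ)
    (hJ : ¬ J ≤ P) (h : P ^ e ∣ X * J) : P ^ e ∣ X := by
  have h1 : IsCoprime (P ^ e) J := by
    refine IsCoprime.pow_left ?_
    rw [Ideal.isCoprime_iff_sup_eq]
    refine hP.1.2 _ ?_
    refine lt_of_le_of_ne le_sup_left fun h2 => hJ ?_
    rw [h2]
    exact le_sup_right
  exact h1.dvd_of_dvd_mul_right h

theorem rr_pow_dvd {k L K : Type} [Field k] [NumberField k] [Field L] [NumberField L]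
    [Algebra k L] [Field K] [NumberField K] [Algebra L K] (G : (𝓞 k)[X][X]) (hG : G.Monic)
    (p : Pt k G) (x : L) (y : K) (hy : ev x y G = 0) (q : Ideal (𝓞 L)) (hq : q.IsMaximal)
    (hbad : algebraMap (𝓞 k) (𝓞 L) p.bad ∉ q) (hz1 : SS.zf p.b x ≤ q)
    (hz2 : ¬ SS.zf p.b x ≤ q ^ 2) :
    rr q x y p.h ^ p.e ∣ q.map (algebraMap (𝓞 L) (𝓞 K)) := by
  classical
  have hqp : q.IsPrime := hq.isPrime
  have he := p.he
  have hbad' : ∀ c : 𝓞 k, c ∣ p.bad → algebraMap (𝓞 k) (𝓞 L) c ∉ q := by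
    rintro c ⟨c', hc'⟩ hc
    exact hbad (by rw [hc', map_mul]; exact Ideal.mul_mem_right _ _ hc)
  have hd2 : algebraMap (𝓞 k) (𝓞 L) p.d₂ ∉ q :=
    hbad' _ ⟨p.d₁ * p.d₃ * p.b.leadingCoeff * p.lead, by unfold Pt.bad; ring⟩
  have hlb : algebraMap (𝓞 k) (𝓞 L) p.b.leadingCoeff ∉ q :=
    hbad' _ ⟨p.d₁ * p.d₂ * p.d₃ * p.lead, by unfold Pt.bad; ring⟩
  -- the denominator
  obtain ⟨j, hj, hjq⟩ : ∃ j ∈ RefW.denIdealOf x, j ∉ q := by
    by_contra h
    push Not at h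
    exact hlb (SS.lead_mem p.b x q h hz1)
  -- the integral elements
  obtain ⟨Nh, hNh⟩ := exists_int G hG p.h
  obtain ⟨Nμ, hNμ⟩ := exists_int G hG p.μ
  obtain ⟨NH, hNH⟩ := exists_int G hG p.H
  obtain ⟨Nα, hNα⟩ := exists_int G hG p.α
  obtain ⟨Nβ, hNβ⟩ := exists_int G hG p.β
  obtain ⟨Nγ, hNγ⟩ := exists_int G hG p.γ
  obtain ⟨N, hN⟩ : ∃ N, N = p.b.natDegree + Nh + Nμ + NH + Nα + Nβ + Nγ := ⟨_, rfl⟩
  obtain ⟨wh, hwh⟩ := hNh N (by omega) L K x y hy j hj
  obtain ⟨wμ, hwμ⟩ := hNμ N (by omega) L K x y hy j hj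
  obtain ⟨wH, hwH⟩ := hNH N (by omega) L K x y hy j hj
  obtain ⟨wα, hwα⟩ := hNα N (by omega) L K x y hy j hj
  obtain ⟨wβ, hwβ⟩ := hNβ N (by omega) L K x y hy j hj
  obtain ⟨wγ, hwγ⟩ := hNγ N (by omega) L K x y hy j hj
  obtain ⟨w₀, hw₀⟩ := SS.eval_int p.b x _ le_rfl _ (Ideal.pow_mem_pow hj _)
  have hw₀z : w₀ ∈ SS.zf p.b x := ⟨j ^ p.b.natDegree, Ideal.pow_mem_pow hj _, hw₀⟩
  have hw₀q : w₀ ∈ q := hz1 hw₀z
  have hw₀q2 : w₀ ∉ q ^ 2 := by
    intro h
    apply hz2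
    intro w' hw'
    obtain ⟨j', hj', hw''⟩ := hw'
    refine SS.pow_cancel q hq 2 w' (j ^ p.b.natDegree) (fun h' => hjq (hqp.mem_of_pow_mem _ h'))
      ?_
    have h1 : w' * j ^ p.b.natDegree = w₀ * j' := by
      apply RingOfIntegers.ext
      change (w' : L) * (j : L) ^ p.b.natDegree = (w₀ : L) * (j' : L)
      have e0 : ((j ^ p.b.natDegree : 𝓞 L) : L) = (j : L) ^ p.b.natDegree := rfl
      rw [hw'', hw₀, e0]
      ring
    rw [h1]
    exact Ideal.mul_mem_right _ _ h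
  obtain ⟨wb, hwb⟩ : ∃ wb : 𝓞 L, wb = w₀ * j ^ (N - p.b.natDegree) := ⟨_, rfl⟩
  have hwbq : wb ∈ q := by
    rw [hwb]
    exact Ideal.mul_mem_right _ _ hw₀q
  have hwbq2 : wb ∉ q ^ 2 := by
    intro h
    rw [hwb] at h
    exact hw₀q2 (SS.pow_cancel q hq 2 _ _ (fun h' => hjq (hqp.mem_of_pow_mem _ h')) h)
  have hevb : ev x y (C p.b) = algebraMap L K (aeval x (p.b.map (algebraMap (𝓞 k) k))) := by
    unfold ev
    rw [coe_eval₂RingHom, eval₂_C, RingHom.comp_apply, coe_eval₂RingHom, aeval_def, eval₂_map]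
  have hevd : ev x y (C (C p.d₂)) =
      ((algebraMap (𝓞 L) (𝓞 K) (algebraMap (𝓞 k) (𝓞 L) p.d₂) : 𝓞 K) : K) := by
    unfold ev
    rw [coe_eval₂RingHom, eval₂_C, RingHom.comp_apply, coe_eval₂RingHom, eval₂_C]
    rfl
  have hwbK : ((algebraMap (𝓞 L) (𝓞 K) wb : 𝓞 K) : K) =
      ev x y (C p.b) * algebraMap L K (j : L) ^ N := by
    have e1 : ((algebraMap (𝓞 L) (𝓞 K) wb : 𝓞 K) : K) = algebraMap L K (wb : L) := rfl
    have e2 : (wb : L) = (w₀ : L) * (j : L) ^ (N - p.b.natDegree) := by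
      rw [hwb]
      rfl
    have e3 : ((j ^ p.b.natDegree : 𝓞 L) : L) = (j : L) ^ p.b.natDegree := rfl
    rw [e1, e2, hw₀, hevb, e3, mul_assoc, ← pow_add, map_mul, map_pow]
    congr 2
    omega
  obtain ⟨J, hJ⟩ : ∃ J : 𝓞 K, J = algebraMap (𝓞 L) (𝓞 K) j := ⟨_, rfl⟩
  have hJK : (J : K) = algebraMap L K (j : L) := by
    rw [hJ]
    rfl
  rw [← hJK] at hwh hwμ hwH hwα hwβ hwγ hwbK
  have hG0 : ev x y G = 0 := hy
  -- the two equations
  have eq1 : wμ ^ p.e = algebraMap (𝓞 L) (𝓞 K) wb * (wH * J ^ (N * (p.e - 2))) := by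
    apply RingOfIntegers.ext
    change (wμ : K) ^ p.e = ((algebraMap (𝓞 L) (𝓞 K) wb : 𝓞 K) : K) *
      ((wH : K) * (J : K) ^ (N * (p.e - 2)))
    rw [hwμ, hwbK, hwH, mul_pow, ← map_pow, p.h2, map_add, map_mul, map_mul, hG0, zero_mul,
      add_zero]
    have e4 : ((J : K) ^ N) ^ p.e = (J : K) ^ N * (J : K) ^ N * (J : K) ^ (N * (p.e - 2)) := by
      rw [← pow_mul, ← pow_add, ← pow_add]
      congr 1
      obtain ⟨e', he'⟩ : ∃ e', p.e = e' + 2 := ⟨p.e - 2, by omega⟩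
      rw [he', Nat.add_sub_cancel]
      ring
    rw [e4]
    ring
  have eq2 : wα * algebraMap (𝓞 L) (𝓞 K) wb + wβ * wh + wγ * wH =
      algebraMap (𝓞 L) (𝓞 K) (algebraMap (𝓞 k) (𝓞 L) p.d₂) * J ^ (2 * N) := by
    apply RingOfIntegers.ext
    change (wα : K) * ((algebraMap (𝓞 L) (𝓞 K) wb : 𝓞 K) : K) + (wβ : K) * (wh : K) +
      (wγ : K) * (wH : K) =
      ((algebraMap (𝓞 L) (𝓞 K) (algebraMap (𝓞 k) (𝓞 L) p.d₂) : 𝓞 K) : K) *
        (J : K) ^ (2 * N)
    rw [← hevd, ← p.h3, hwα, hwbK, hwβ, hwh, hwγ, hwH]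
    simp only [map_add, map_mul]
    ring
  -- the ideals
  have hq0 : q ≠ ⊥ := by
    rintro rfl
    exact hz2 (hz1.trans bot_le)
  have hinj : Function.Injective (algebraMap (𝓞 L) (𝓞 K)) := by
    intro a b hab
    apply RingOfIntegers.ext
    apply (algebraMap L K).injective
    exact congrArg (fun z : 𝓞 K => (z : K)) hab
  have hX0 : q.map (algebraMap (𝓞 L) (𝓞 K)) ≠ 0 := by
    intro h
    rw [Ideal.zero_eq_bot, Ideal.map_eq_bot_iff_of_injective hinj] at h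
    exact hq0 h
  have hle : q.map (algebraMap (𝓞 L) (𝓞 K)) ≤ rr q x y p.h :=
    le_sup_left.trans Ideal.le_radical
  refine ram_radical _ _ (Ideal.radical_isRadical _) ?_ hX0 _ fun P hP hIP => ?_
  · intro h
    have h' : rr q x y p.h = ⊥ := h
    rw [h'] at hle
    exact hX0 (le_bot_iff.1 hle)
  have hqP : q.map (algebraMap (𝓞 L) (𝓞 K)) ≤ P := hle.trans hIP
  have hP0 : P ≠ ⊥ := by
    rintro rfl
    exact hX0 (le_bot_iff.1 hqP)
  have hPm : P.IsMaximal := hP.isMaximal hP0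
  have hcom : P.comap (algebraMap (𝓞 L) (𝓞 K)) = q := by
    refine (hq.eq_of_le ?_ (Ideal.le_comap_of_map_le hqP)).symm
    exact (Ideal.IsPrime.comap (algebraMap (𝓞 L) (𝓞 K)) (K := P)).ne_top
  have hmem : ∀ a : 𝓞 L, algebraMap (𝓞 L) (𝓞 K) a ∈ P ↔ a ∈ q := fun a => by
    rw [← hcom]
    rfl
  have hJP : J ∉ P := by
    rw [hJ, hmem]
    exact hjq
  have hwbP : algebraMap (𝓞 L) (𝓞 K) wb ∈ P := (hmem wb).2 hwbq
  have hwhP : wh ∈ P := by
    refine hIP (Ideal.le_radical (Ideal.mem_sup_right (Ideal.subset_span ?_)))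
    refine ⟨j, hj, N, ?_⟩
    rw [hwh, hJK]
  have hwHP : wH ∉ P := by
    intro h
    have h1 : algebraMap (𝓞 L) (𝓞 K) (algebraMap (𝓞 k) (𝓞 L) p.d₂) * J ^ (2 * N) ∈ P := by
      rw [← eq2]
      exact Ideal.add_mem _ (Ideal.add_mem _ (Ideal.mul_mem_left _ _ hwbP)
        (Ideal.mul_mem_left _ _ hwhP)) (Ideal.mul_mem_left _ _ h)
    rcases hP.mem_or_mem h1 with h2 | h2
    · exact hd2 ((hmem _).1 h2)
    · exact hJP (hP.mem_of_pow_mem _ h2)
  have hwμP : wμ ∈ P := by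
    refine hP.mem_of_pow_mem p.e ?_
    rw [eq1]
    exact Ideal.mul_mem_right _ _ hwbP
  obtain ⟨B, hB⟩ : q ∣ Ideal.span {wb} := by
    rw [Ideal.dvd_span_singleton]
    exact hwbq
  have hBq : ¬ B ≤ q := by
    intro h
    apply hwbq2
    rw [← Ideal.dvd_span_singleton, hB, sq]
    exact mul_dvd_mul_left q (Ideal.dvd_iff_le.2 h)
  have hdiv : P ^ p.e ∣ q.map (algebraMap (𝓞 L) (𝓞 K)) *
      (B.map (algebraMap (𝓞 L) (𝓞 K)) * Ideal.span {wH * J ^ (N * (p.e - 2))}) := by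
    rw [← mul_assoc, ← Ideal.map_mul, ← hB, Ideal.map_span, Set.image_singleton,
      Ideal.span_singleton_mul_span_singleton, ← eq1, Ideal.dvd_span_singleton]
    exact Ideal.pow_mem_pow hwμP _
  refine ram_coprime P _ _ hPm _ ?_ hdiv
  rw [hP.mul_le]
  rintro (h | h)
  · apply hBq
    rw [← hcom]
    exact Ideal.le_comap_of_map_le h
  · rw [Ideal.span_singleton_le_iff_mem] at h
    rcases hP.mem_or_mem h with h2 | h2
    · exact hwHP h2
    · exact hJP (hP.mem_of_pow_mem _ h2)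

end Pool.Agent.RPT
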