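import Pool.Agent.RPT.Point
import Pool.Agent.COV.GenI

/-!
# All covers of the line: the points of maximal degree over the line
-/

set_option autoImplicit false

open Polynomial NumberField IntermediateField Module

namespace Pool.Agent.RPT

/-- The points `P = (x, y)` of the curve `G = 0` with `[k(x) : k] = m`, `[k(P) : k(x)] = deg_Y G`
and of height at most `T`. -/
def Full (k : Type) [Field k] [NumberField k] (G : k[X][X]) (m : ℕ) (T : ℝ) :
    Set (AlgebraicClosure k × AlgebraicClosure k) :=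
  {P ∈ COV.Pts k G m T |
    finrank k (IntermediateField.adjoin k {P.1, P.2}) = m * G.natDegree}

/-- **The number of the points with a small discriminant.** -/
theorem viol (k : Type) [Field k] [NumberField k] (G : k[X][X]) (hG : G.Monic) {s : ℕ}
    (p : Fin s → RamPt k G)
    (hco : ∀ i j, i ≠ j → Ideal.span {C (p i).b, (p i).h, C (p j).b, (p j).h} = ⊤) (m : ℕ)
    (hm : 1 ≤ m)
    (hdeg : ∀ i, (p i).b.natDegree ≤ 2 * m + 1 ∨ (m = 1 ∧ (p i).b.natDegree ≤ 4)) (A' : ℝ)
    (hA' : A' = 0 ∨ (0 < A' ∧ A' * HD.ex (finrank ℚ k) m < m - 1) ∨ (m = 2 ∧ A' < 2)) (A B : ℝ)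
    (hA : A < (∑ i, (((p i).f * ((p i).e - 1) : ℕ) : ℝ) * (p i).b.natDegree) / G.natDegree + A') :
    ∃ C δ : ℝ, 0 < δ ∧ ∀ T : ℝ, 0 ≤ T →
      {P ∈ Full k G m T | HD.logDiscr P ≤ A * AA.height P.1 + B}.Finite ∧
      ({P ∈ Full k G m T | HD.logDiscr P ≤ A * AA.height P.1 + B}.ncard : ℝ) ≤
        C * Real.exp ((m + 1 - δ) * (finrank ℚ k * m) * T) := by
  classical
  obtain ⟨b, C₁, hC₁, hb, hpt⟩ := point k G hG p hco m hm
  choose γ hγ hbγ using hb
  have hunit : ∀ i, IsUnit (C (γ i) : k[X]) := fun i => isUnit_C.2 (isUnit_iff_ne_zero.2 (hγ i))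
  have hirr : ∀ i, Irreducible ((b i).map (algebraMap (𝓞 k) k)) := fun i => by
    rw [hbγ i]
    exact (irreducible_isUnit_mul (hunit i)).2 (p i).irr
  have hnat : ∀ i, (b i).natDegree = (p i).b.natDegree := fun i => by
    rw [← natDegree_map_eq_of_injective RingOfIntegers.coe_injective (b i), hbγ i,
      natDegree_C_mul (hγ i)]
  set w : Fin s → ℝ := fun i => (((p i).f * ((p i).e - 1) : ℕ) : ℝ) / G.natDegree with hw
  have hw0 : ∀ i, 0 ≤ w i := fun i => by positivity
  set M : ℝ := ∑ i, w i * ((p i).b.natDegree : ℝ) with hM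
  have hM' : (∑ i, (((p i).f * ((p i).e - 1) : ℕ) : ℝ) * (p i).b.natDegree) / G.natDegree = M := by
    rw [hM, Finset.sum_div]
    refine Finset.sum_congr rfl fun i _ => ?_
    rw [hw]
    ring
  rw [hM'] at hA
  set W : ℝ := ∑ i, w i with hW
  have hW0 : 0 ≤ W := Finset.sum_nonneg fun i _ => hw0 i
  set gap : ℝ := M + A' - A with hgap
  have hgap0 : 0 < gap := by rw [hgap]; linarith
  set κ : ℝ := min (1 / 2) (gap / (2 * (W + 1))) with hκ
  have hκ0 : 0 < κ := lt_min (by norm_num) (by positivity)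
  have hκh : κ ≤ 1 / 2 := min_le_left _ _
  have hκW : κ * W ≤ gap / 2 := by
    have h1 : κ ≤ gap / (2 * (W + 1)) := min_le_right _ _
    calc κ * W ≤ gap / (2 * (W + 1)) * W := mul_le_mul_of_nonneg_right h1 hW0
      _ ≤ gap / (2 * (W + 1)) * (W + 1) :=
          mul_le_mul_of_nonneg_left (by linarith) (by positivity)
      _ = gap / 2 := by
          field_simp
  set h₀ : ℝ := 2 * (|B| + C₁) / gap with hh₀
  have hh0 : 0 ≤ h₀ := by positivity
  obtain ⟨C, δ, hC, hδ, hbad⟩ := COV.bad_x_simple k b hirr m hm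
    (fun i => by rw [hnat]; exact hdeg i) A' (SFD.discLow k m A' hA') κ h₀ hκ0 hh0
  refine ⟨C * G.natDegree, δ, hδ, fun T hT => ?_⟩
  obtain ⟨fU, cU⟩ := hbad T hT
  set U : Set (AlgebraicClosure k) := {x : AlgebraicClosure k |
    finrank k (IntermediateField.adjoin k {x}) = m ∧
        AA.height x ≤ T ∧ ¬ COV.GoodI b A' κ h₀ x} with hU
  obtain ⟨fV, cV⟩ := COV.pts_fibre k G hG m T
    {P ∈ Full k G m T | HD.logDiscr P ≤ A * AA.height P.1 + B}
    (fun P hP => hP.1.1) U fU (by
      rintro P ⟨⟨⟨hP1, hP2, hP3⟩, hPf⟩, hP4⟩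
      refine ⟨hP2, hP3, fun hgood => ?_⟩
      obtain ⟨hh, hdx, g2⟩ := hgood
      choose c hc hcn using g2
      have hl0 : (0 : ℝ) < finrank ℚ (IntermediateField.adjoin k {P.1}) := by
        have : 0 < finrank ℚ (IntermediateField.adjoin k {P.1}) := finrank_pos
        exact_mod_cast this
      have hhp : 0 < AA.height P.1 := lt_of_le_of_lt hh0 hh
      have hne : ∀ i, aeval P.1 (p i).b ≠ 0 := by
        intro i h0
        have h1 : aeval (AdjoinSimple.gen k P.1) ((b i).map (algebraMap (𝓞 k) k)) = 0 := by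
          rw [hbγ i, map_mul]
          have h2 : aeval (AdjoinSimple.gen k P.1) (p i).b = 0 := by
            apply (algebraMap (IntermediateField.adjoin k {P.1}) (AlgebraicClosure k)).injective
            rw [map_zero, ← aeval_algebraMap_apply]
            exact h0
          rw [h2, mul_zero]
        obtain ⟨hsq, v, hv, hcop⟩ := hc i
        have h3 : COV.zx (b i) P.1 = ⊥ := by
          rw [eq_bot_iff]
          rintro z ⟨j, hj, hz⟩
          rw [h1, zero_mul] at hz
          rw [Ideal.mem_bot]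
          exact RingOfIntegers.coe_eq_zero_iff.1 hz
        rw [h3] at hv
        have hv0 : v = ⊥ := by
          rcases Ideal.mul_eq_bot.1 hv.symm with h | h
          · exact absurd h hsq.ne_zero
          · exact h
        rw [hv0, Ideal.isCoprime_iff_sup_eq, sup_bot_eq] at hcop
        have h4 := hcn i
        rw [hcop, Ideal.absNorm_top, Nat.cast_one, Real.log_one] at h4
        have h5 : (1 : ℝ) ≤ (b i).natDegree := by
          have h6 : 0 < ((b i).map (algebraMap (𝓞 k) k)).natDegree := (hirr i).natDegree_pos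
          rw [natDegree_map_eq_of_injective RingOfIntegers.coe_injective] at h6
          exact_mod_cast h6
        have h7 : 0 < ((b i).natDegree - κ) * AA.height P.1 := mul_pos (by linarith) hhp
        have h8 := mul_pos hl0 h7
        linarith
      have g1 := hpt P hP1 hP2 hPf c hne hc
      have g3 : (finrank ℚ (IntermediateField.adjoin k {P.1}) : ℝ) *
            ((M - κ * W) * AA.height P.1) ≤
            ∑ i, w i * Real.log (Ideal.absNorm (c i)) := by
        have e1 : ∀ i ∈ (Finset.univ : Finset (Fin s)),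
            (finrank ℚ (IntermediateField.adjoin k {P.1}) : ℝ) *
              ((w i * (p i).b.natDegree - κ * w i) * AA.height P.1) ≤
              w i * Real.log (Ideal.absNorm (c i)) := by
          intro i _
          have e2 := mul_le_mul_of_nonneg_left (hcn i) (hw0 i)
          rw [hnat i] at e2
          refine le_trans (le_of_eq ?_) e2
          ring
        refine le_trans (le_of_eq ?_) (Finset.sum_le_sum e1)
        rw [← Finset.mul_sum, ← Finset.sum_mul, Finset.sum_sub_distrib, ← Finset.mul_sum]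
      have g4 : (M - κ * W) * AA.height P.1 ≤
          (∑ i, w i * Real.log (Ideal.absNorm (c i))) /
            finrank ℚ (IntermediateField.adjoin k {P.1}) := by
        rw [le_div_iff₀ hl0, mul_comm]
        exact g3
      have g6 : κ * W * AA.height P.1 ≤ gap / 2 * AA.height P.1 :=
        mul_le_mul_of_nonneg_right hκW hhp.le
      have g7 : gap * AA.height P.1 = M * AA.height P.1 + A' * AA.height P.1 -
          A * AA.height P.1 := by
        rw [hgap]
        ring
      have g8 : gap / 2 * AA.height P.1 ≤ |B| + C₁ := by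
        have e1 : (M - κ * W) * AA.height P.1 = M * AA.height P.1 -
          κ * W * AA.height P.1 := by ring
        have := le_abs_self B
        linarith
      have g9 : gap / 2 * (2 * (|B| + C₁) / gap) = |B| + C₁ := by
        field_simp
      have g10 : gap / 2 * (2 * (|B| + C₁) / gap) < gap / 2 * AA.height P.1 :=
        mul_lt_mul_of_pos_left hh (by positivity)
      linarith)
  refine ⟨fV, cV.trans ?_⟩
  calc (U.ncard : ℝ) * G.natDegree ≤
      (C * Real.exp ((m + 1 - δ) * (finrank ℚ k * m) * T)) * G.natDegree :=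
        mul_le_mul_of_nonneg_right cU (Nat.cast_nonneg _)
    _ = _ := by ring

/-- **The height inequality for almost all points.** -/
theorem q1 (k : Type) [Field k] [NumberField k] {t : ℕ} (pr : Fin t → ℕ)
    [∀ t, Fact (pr t).Prime] (hpr : Function.Injective pr) (g : k[X]) (hg : Squarefree g) (q : ℕ)
    (hq : q = g.natDegree ∨ q = g.natDegree + 1) (G : k[X][X]) (hG : G.Monic) {s : ℕ}
    (p : Fin s → RamPt k G)
    (hco : ∀ i j, i ≠ j → Ideal.span {C (p i).b, (p i).h, C (p j).b, (p j).h} = ⊤) (m : ℕ)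
    (hm : 1 ≤ m)
    (hdeg : ∀ i, (p i).b.natDegree ≤ 2 * m + 1 ∨ (m = 1 ∧ (p i).b.natDegree ≤ 4)) (A' : ℝ)
    (hA' : A' = 0 ∨ (0 < A' ∧ A' * HD.ex (finrank ℚ k) m < m - 1) ∨ (m = 2 ∧ A' < 2)) (A ε : ℝ)
    (hA : A - ε <
      (∑ i, (((p i).f * ((p i).e - 1) : ℕ) : ℝ) * (p i).b.natDegree) / G.natDegree + A') :
    ∃ C δ : ℝ, 0 < δ ∧ ∀ T : ℝ, 0 ≤ T →
      {P ∈ Full k G m T | aeval P.1 g ≠ 0 ∧ HD.logDiscr P + ε * AA.height P.1 <
          AA.proximity pr g q P.1 + A * AA.height P.1}.Finite ∧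
      ({P ∈ Full k G m T | aeval P.1 g ≠ 0 ∧ HD.logDiscr P + ε * AA.height P.1 <
          AA.proximity pr g q P.1 + A * AA.height P.1}.ncard : ℝ) ≤
        C * Real.exp ((m + 1 - δ) * (finrank ℚ k * m) * T) := by
  classical
  set d := finrank ℚ k with hd
  set M : ℝ := (∑ i, (((p i).f * ((p i).e - 1) : ℕ) : ℝ) * (p i).b.natDegree) / G.natDegree
    with hM
  set gap : ℝ := M + A' - (A - ε) with hgap
  have hgap0 : 0 < gap := by rw [hgap]; linarith
  set α : ℝ := min 1 (gap / 2) with hα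
  have hα0 : 0 < α := lt_min one_pos (half_pos hgap0)
  have hα1 : α ≤ 1 := min_le_left _ _
  have hαg : α ≤ gap / 2 := min_le_right _ _
  obtain ⟨C₁, δ₁, hδ₁, h₁⟩ := viol k G hG p hco m hm hdeg A' hA'
    (A - ε + α) 0 (by rw [hgap] at hαg; linarith)
  obtain ⟨C₂, h₂⟩ := TW.near_all_one k pr hpr g hg q hq m hm α (α / 2) hα0.le (by linarith)
    (half_pos hα0)
  refine ⟨|C₁| + |C₂| * G.natDegree, min δ₁ (α / 2), lt_min hδ₁ (half_pos hα0), fun T hT => ?_⟩
  obtain ⟨f1, c1⟩ := h₁ T hT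
  set B : ℝ := Real.exp (d * m * T) with hB
  have hB1 : 1 ≤ B := Real.one_le_exp (by positivity)
  have hB0 : 0 < B := lt_of_lt_of_le one_pos hB1
  obtain ⟨f2, c2⟩ := h₂ B hB1
  set U := {x : AlgebraicClosure k | finrank k (IntermediateField.adjoin k {x}) = m ∧
      AA.relHeight x ≤ B ∧ aeval x g ≠ 0 ∧ α * AA.height x ≤ AA.proximity pr g q x} with hU
  set V := {P ∈ Full k G m T | aeval P.1 g ≠ 0 ∧ HD.logDiscr P + ε * AA.height P.1 <
          AA.proximity pr g q P.1 + A * AA.height P.1} with hV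
  set V₁ := {P ∈ Full k G m T | HD.logDiscr P ≤ (A - ε + α) * AA.height P.1 + 0} with hV₁
  set V₂ := {P ∈ Full k G m T | P.1 ∈ U} with hV₂
  obtain ⟨f3, c3⟩ := COV.pts_fibre k G hG m T V₂ (fun P hP => hP.1.1) U f2 fun P hP => hP.2
  have hsub : V ⊆ V₁ ∪ V₂ := by
    rintro P ⟨hP, hgx, hlt⟩
    by_cases hprox : α * AA.height P.1 ≤ AA.proximity pr g q P.1
    · right
      refine ⟨hP, hP.1.2.1, ?_, hgx, hprox⟩
      rw [SFD.relHeight_eq P.1 m hP.1.2.1]
      exact Real.exp_le_exp.2 (mul_le_mul_of_nonneg_left hP.1.2.2 (by positivity))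
    · left
      refine ⟨hP, ?_⟩
      rw [not_le] at hprox
      have : (A - ε + α) * AA.height P.1 =
        A * AA.height P.1 - ε * AA.height P.1 + α * AA.height P.1 := by ring
      linarith
  refine ⟨(f1.union f3).subset hsub, ?_⟩
  have g1 : (V.ncard : ℝ) ≤ V₁.ncard + V₂.ncard := by
    exact_mod_cast (Set.ncard_le_ncard hsub (f1.union f3)).trans (Set.ncard_union_le _ _)
  set δ : ℝ := min δ₁ (α / 2) with hδ
  have hexp : Real.exp ((m + 1 - δ) * (d * m) * T) = B ^ ((m : ℝ) + 1 - δ) := by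
    rw [hB, ← Real.exp_mul]
    congr 1
    ring
  have g2 : (V₁.ncard : ℝ) ≤ |C₁| * Real.exp ((m + 1 - δ) * (d * m) * T) := by
    have e1 : Real.exp ((m + 1 - δ₁) * (d * m) * T) ≤ Real.exp ((m + 1 - δ) * (d * m) * T) := by
      refine Real.exp_le_exp.2 ?_
      have : δ ≤ δ₁ := min_le_left _ _
      refine mul_le_mul_of_nonneg_right (mul_le_mul_of_nonneg_right (by linarith)
        (by positivity)) hT
    calc (V₁.ncard : ℝ) ≤ C₁ * Real.exp ((m + 1 - δ₁) * (d * m) * T) := c1
      _ ≤ |C₁| * Real.exp ((m + 1 - δ₁) * (d * m) * T) :=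
          mul_le_mul_of_nonneg_right (le_abs_self _) (Real.exp_pos _).le
      _ ≤ _ := mul_le_mul_of_nonneg_left e1 (abs_nonneg _)
  have g3 : (U.ncard : ℝ) ≤ |C₂| * Real.exp ((m + 1 - δ) * (d * m) * T) := by
    rw [hexp]
    have e1 : B ^ ((m : ℝ) + 1 - α + α / 2) ≤ B ^ ((m : ℝ) + 1 - δ) := by
      refine Real.rpow_le_rpow_of_exponent_le hB1 ?_
      have : δ ≤ α / 2 := min_le_right _ _
      linarith
    calc (U.ncard : ℝ) ≤ C₂ * B ^ ((m : ℝ) + 1 - α + α / 2) := c2
      _ ≤ |C₂| * B ^ ((m : ℝ) + 1 - α + α / 2) :=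
          mul_le_mul_of_nonneg_right (le_abs_self _) (by positivity)
      _ ≤ _ := mul_le_mul_of_nonneg_left e1 (abs_nonneg _)
  calc (V.ncard : ℝ) ≤ V₁.ncard + V₂.ncard := g1
    _ ≤ |C₁| * Real.exp ((m + 1 - δ) * (d * m) * T) +
        (|C₂| * Real.exp ((m + 1 - δ) * (d * m) * T)) * G.natDegree :=
        add_le_add g2 (c3.trans (mul_le_mul_of_nonneg_right g3 (Nat.cast_nonneg _)))
    _ = _ := by ring

end Pool.Agent.RPT
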